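import Pool.Agent.P.MP_b91a16_ag.St.Hyp

/-! The normalised volumes of a nondegenerate polynomial. -/

set_option linter.unusedSectionVars false

open MvPolynomial

namespace Pool.Agent.P.MP_b91a16_ag.St

noncomputable section

open RA Cv RB

variable {k σ ι : Type} [Field k] [Fintype σ] [DecidableEq σ] [Fintype ι] [DecidableEq ι]
variable (u : ι → σ → ℕ) (a : ι → k)

theorem GG_zero {K : Type} [CommRing K] [Algebra k K] (y : σ → PowerSeries K) :
    GG u a 0 y = aeval y (fpoly u a) := by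
  simp [GG, fpoly, alg_ps]

theorem hasVol_strata (Ψ : ∀ (K : Type) [Field K] [Algebra k K], PowerSeries K → Prop) (m : ℕ)
    (v : (σ → ℕ) → Mot k) (hv : ∀ w, HasVol (k := k) (fun K _ _ (y : σ × ℕ → K) =>
      (∀ j ∈ JJ m w, y (j, 0) ≠ 0) ∧ Ψ K (GG u a (oo u w) (ser y))) (v w)) :
    HasVol (k := k) (fun K _ _ (x : σ × ℕ → K) => Ψ K (aeval (arc x) (fpoly u a)))
      (∑ w ∈ Fintype.piFinset fun _ : σ => Finset.range (m + 1), Linv k ^ (∑ j, w j) * v w) := by
  refine (hasVol_sum _ (fun w K _ _ x => ((∀ j ∈ JJ m w, (x ∘ shiftEmb w) (j, 0) ≠ 0) ∧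
    Ψ K (GG u a (oo u w) (ser (x ∘ shiftEmb w)))) ∧
    ∀ p ∈ lowSet w, x p = 0) _ (fun w hw => ?_) ?_).congr fun K _ _ x => ?_
  · rw [← card_lowSet]
    refine ((hv w).comap (shiftEmb w)).and_forall_zero _ ?_
    intro p hp K _ _ x c hx
    have : Function.update x p c ∘ shiftEmb w = x ∘ shiftEmb w := by
      funext q
      refine Function.update_of_ne ?_ _ _
      rintro rfl
      rw [mem_lowSet] at hp
      simp at hp
    rwa [this]
  · have aux : ∀ (K : Type) [Field K] [Algebra k K] (x : σ × ℕ → K) (w w' : σ → ℕ),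
        (∀ j, w' j ≤ m) → (∀ j ∈ JJ m w, (x ∘ shiftEmb w) (j, 0) ≠ 0) →
        (∀ p ∈ lowSet w', x p = 0) → ∀ j, w' j ≤ w j := by
      intro K _ _ x w w' hw' h1 h2 j
      by_contra hlt
      push Not at hlt
      refine h1 j (Finset.mem_filter.2 ⟨Finset.mem_univ _, hlt.trans_le (hw' j)⟩) ?_
      exact h2 _ ((mem_lowSet w' _).2 (by simpa using hlt))
    intro K _ _ x w hw w' hw' h h'
    funext j
    exact le_antisymm
      (aux K x w' w (fun j => Nat.lt_succ_iff.1 (Finset.mem_range.1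
        (Fintype.mem_piFinset.1 hw j))) h'.1.1 h.2 j)
      (aux K x w w' (fun j => Nat.lt_succ_iff.1 (Finset.mem_range.1
        (Fintype.mem_piFinset.1 hw' j))) h.1.1 h'.2 j)
  · rw [← GG_zero]
    constructor
    · rintro ⟨w, -, h1, h2⟩
      exact GG_shift u a w x h2 ▸ h1.2
    · intro h
      classical
      have hex : ∀ j, ∃ l, l = m ∨ x (j, l) ≠ 0 := fun j => ⟨m, Or.inl rfl⟩
      let w : σ → ℕ := fun j => Nat.find (hex j)
      have hw : ∀ j, w j ≤ m := fun j => Nat.find_min' (hex j) (Or.inl rfl)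
      have h2 : ∀ p ∈ lowSet w, x p = 0 := by
        intro p hp
        rw [mem_lowSet] at hp
        have := Nat.find_min (hex p.1) hp
        push Not at this
        exact this.2
      refine ⟨w, Fintype.mem_piFinset.2 fun j => Finset.mem_range.2 (Nat.lt_succ_of_le (hw j)),
        ⟨fun j hj => ?_, GG_shift u a w x h2 ▸ h⟩, h2⟩
      have h3 := (Finset.mem_filter.1 hj).2
      rcases Nat.find_spec (hex j) with h4 | h4
      · exact absurd h4 h3.ne
      · simpa using h4

theorem stratum (e : ι → ℕ) (hu : ∀ i₀, (∀ i, e i₀ ≤ e i) →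
    NDI u a (Finset.univ.filter fun i => e i = e i₀)) (m : ℕ) (d : k)
    (J : Finset σ) (hJ : ∀ i, e i ≤ m + 1 → ∀ j, u i j ≠ 0 → j ∈ J) :
    ∃ v : Mot k × Mot k, HasVol (k := k) (fun K _ _ (y : σ × ℕ → K) => (∀ j ∈ J, y (j, 0) ≠ 0) ∧
      ∀ p ≤ m + 1, PowerSeries.coeff p (GG u a e (ser y)) =
        algebraMap k K (if p = m + 1 then d else 0)) v.1 ∧
      HasVol (k := k) (fun K _ _ (y : σ × ℕ → K) => (∀ j ∈ J, y (j, 0) ≠ 0) ∧
        ∀ p ≤ m, PowerSeries.coeff p (GG u a e (ser y)) = 0) v.2 ∧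
      v.1 - Linv k * v.2 = if ∀ i, m + 1 ≤ e i then
        (1 - Linv k) ^ (J \ supp u (Finset.univ.filter fun i => e i = m + 1)).card *
          pp u a (Finset.univ.filter fun i => e i = m + 1) d else 0 := by
  have hs : ∀ N ≤ m + 1, supp u (Finset.univ.filter fun i => e i = N) ⊆ J := fun N hN j hj => by
    obtain ⟨i, hi, h⟩ := (mem_supp u).1 hj
    exact hJ i ((Finset.mem_filter.1 hi).2 ▸ hN) j h
  split_ifs with h
  · set I := Finset.univ.filter fun i => e i = m + 1
    refine ⟨(_, _), ((hasVol_tvol u a I d).and_units (J \ supp u I) fun j hj K _ _ y c hy =>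
      TP_update u a I _ (Finset.mem_sdiff.1 hj).2 c hy).congr fun K _ _ y => ?_,
      (hasVol_units J).congr fun K _ _ y => (and_iff_left fun p hp => ?_).symm, ?_⟩
    · have h1 := coeff_GG_of_le u a e (m + 1) h y
      constructor
      · rintro ⟨⟨h2, h3⟩, h4⟩
        refine ⟨fun j hj => ?_, fun p hp => ?_⟩
        · by_cases h : j ∈ supp u I
          exacts [h2 j h, h4 j (Finset.mem_sdiff.2 ⟨hj, h⟩)]
        · rw [h1 p hp, h3]
          split_ifs <;> simp
      · rintro ⟨h2, h3⟩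
        exact ⟨⟨fun j hj => h2 j (hs _ le_rfl hj), by simpa [h1] using h3 _ le_rfl⟩,
          fun j hj => h2 j (Finset.mem_sdiff.1 hj).1⟩
    · rw [coeff_GG_of_le u a e (m + 1) h y p (by omega), if_neg (by omega)]
    · rw [pp, ← Finset.card_sdiff_add_card_eq_card (hs _ le_rfl)]
      ring
  · push Not at h
    obtain ⟨i₁, hi₁⟩ := h
    obtain ⟨i₀, -, hi₀⟩ := Finset.exists_min_image Finset.univ e ⟨i₁, Finset.mem_univ _⟩
    have hN : ∀ i, e i₀ ≤ e i := fun i => hi₀ i (Finset.mem_univ i)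
    have hm : e i₀ ≤ m := by have := hN i₁; omega
    have h1 := fun l => hasVol_levels u a e _ hN (hu i₀ hN) J (hs _ (by omega))
      (fun p => if p = m + 1 then d else 0) l fun _ => if_neg (by omega)
    have h2 : ∀ (K : Type) [Field K] [Algebra k K] (y : σ × ℕ → K), ∀ p < e i₀,
        PowerSeries.coeff p (GG u a e (ser y)) = 0 := fun K _ _ y p hp => by
      rw [coeff_GG_of_le u a e _ hN y p hp.le, if_neg hp.ne]
    refine ⟨(_, _), (h1 (m - e i₀ + 1)).congr fun K _ _ y => and_congr_right fun _ =>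
      ⟨fun h p hp => ?_, fun h p _ hp => h p (by omega)⟩,
      (h1 (m - e i₀)).congr fun K _ _ y => and_congr_right fun _ =>
      ⟨fun h p hp => ?_, fun h p _ hp => ?_⟩, by ring⟩
    · by_cases h' : p < e i₀
      · rw [h2 K y p h', if_neg (by omega), map_zero]
      · exact h p (by omega) (by omega)
    · by_cases h' : p < e i₀
      · exact h2 K y p h'
      · rw [h p (by omega) (by omega), if_neg (by omega), map_zero]
    · rw [h p (by omega), if_neg (by omega), map_zero]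

theorem ex_formula
    (hu : ∀ w i₀, (∀ i, oo u w i₀ ≤ oo u w i) → NDI u a (II u w (oo u w i₀))) (m : ℕ) (d : k) :
    ex (fpoly u a) m d = ∑ w ∈ Fintype.piFinset fun _ : σ => Finset.range (m + 1 + 1),
      if ∀ i, m + 1 ≤ oo u w i then Linv k ^ (∑ j, w j) *
        ((1 - Linv k) ^ (JJ (m + 1) w \ supp u (II u w (m + 1))).card *
          pp u a (II u w (m + 1)) d) else 0 := by
  choose v h1 h2 h3 using fun w => stratum u a (oo u w) (hu w) m d (JJ (m + 1) w)
    fun i hi j hj => mem_JJ_of_le u hi hj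
  rw [ex, ((hasVol_vol _ _ d).congr fun K _ _ x => CP_iff').unique (hasVol_strata u a
    (fun K _ _ F => ∀ p ≤ m + 1, PowerSeries.coeff p F =
      algebraMap k K (if p = m + 1 then d else 0)) (m + 1) _ h1),
    ((hasVol_vol _ m 0).congr fun K _ _ x => by simp [CP_iff']).unique (hasVol_strata u a
    (fun K _ _ F => ∀ p ≤ m, PowerSeries.coeff p F = 0) (m + 1) _ h2), Finset.mul_sum,
    ← Finset.sum_sub_distrib]
  refine Finset.sum_congr rfl fun w _ => ?_
  rw [mul_left_comm, ← mul_sub, h3, mul_ite, mul_zero]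
  rfl

/-- The generating series of the normalised volumes. -/
def exS (g : MvPolynomial σ k) (d : k) : PowerSeries (Mot k) :=
  PowerSeries.X * PowerSeries.mk fun m => ex g m d

variable [CharZero k] {u a}

theorem exS_mem (hu0 : ∀ i, ∃ j, u i j ≠ 0) (hN : ND2 u a)
    (hu : ∀ w i₀, (∀ i, oo u w i₀ ≤ oo u w i) → NDI u a (II u w (oo u w i₀)))
    {Al : ℕ × ℕ → Prop} (hR : RootHyp3 u Al) (hAl : ∀ p, Al p → 0 < p.2) :
    ∃ S : Finset (ℕ × ℕ), (∀ p ∈ S, Al p) ∧ ∀ d, exS (fpoly u a) d ∈ poleRing k S := by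
  obtain ⟨x, h0, h1, hx⟩ := exists_transcendental
  obtain ⟨cc, θ, c1, c2, c3⟩ := exists_cc hu0 hN h0 h1
  have g : ∀ R, ∃ S : Finset (ℕ × ℕ), (∀ p ∈ S, Al p) ∧
      PowerSeries.map (evM k) (PowerSeries.mk fun m => cc R m m) ∈ poleRing k S := fun R => by
    obtain ⟨F, hF, D, hD, hDF⟩ := exists_series3 h0 h1 hR (c1 R)
    refine transfer (k := k) hx hAl _ ⟨D, hD, ?_⟩
    have : PowerSeries.map (evR x) (PowerSeries.mk fun m => cc R m m) =
        (1 - x) ^ Fintype.card σ • F := by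
      ext m
      simp only [PowerSeries.coeff_map, PowerSeries.coeff_mk, c2 R m m _ le_rfl (hF m), map_smul,
        smul_eq_mul]
    rw [this, mul_smul_comm]
    exact PolyS.smul_mem hDF _
  choose S hS hF using g
  refine ⟨Finset.univ.biUnion S, fun p hp => ?_, fun d => ?_⟩
  · obtain ⟨R, -, hp⟩ := Finset.mem_biUnion.1 hp
    exact hS R p hp
  have : exS (fpoly u a) d = ∑ R, pp u a R d • (PowerSeries.map (evM k)
      (PowerSeries.mk fun m => cc R m m) - algebraMap _ _ (evM k (cc R 0 0))) := by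
    ext m
    rcases m with _ | m
    · simp only [exS, map_sum, map_smul, map_sub, PowerSeries.coeff_map, PowerSeries.coeff_mk]
      simp
    · rw [exS, PowerSeries.coeff_succ_X_mul, PowerSeries.coeff_mk, ex_formula u a hu, c3]
      simp
  rw [this]
  exact Subalgebra.sum_mem _ fun R _ => Subalgebra.smul_mem _ (sub_mem (poleRing_mono
    (Finset.subset_biUnion_of_mem S (Finset.mem_univ R)) (hF R)) (Subalgebra.algebraMap_mem _ _)) _

theorem newt {n : ℕ} (f : MvPolynomial (Fin n) k) (hf : f ≠ 0) (h0 : constantCoeff f = 0)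
    (hN : Nondeg f) :
    ∃ S : Finset (ℕ × ℕ), (∀ d, exS f d ∈ poleRing k S) ∧ ∀ p ∈ S, 0 < p.2 ∧
      (∀ b, LocalBernsteinEq f b → b.eval (-(p.1 : k) / p.2) = 0) ∧
      ∃ w : Fin n → ℕ, ∑ j, w j = p.1 ∧ ∀ v ∈ f.support, p.2 ≤ ∑ j, w j * v j := by
  classical
  let u : f.support → Fin n → ℕ := fun v j => v.1 j
  let a : f.support → k := fun v => coeff v.1 f
  have em : ∀ (v : f.support) (c : k), C c * ∏ j, X j ^ u v j = monomial v.1 c := fun v c => by
    rw [monomial_eq, Finsupp.prod_fintype _ _ fun _ => pow_zero _]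
  have e : fpoly u a = f := by
    conv_rhs => rw [f.as_sum, ← Finset.sum_coe_sort]
    exact Finset.sum_congr rfl fun v _ => em v _
  have ha : ∀ v, a v ≠ 0 := fun v => mem_support_iff.1 v.2
  have hu0 : ∀ v, ∃ j, u v j ≠ 0 := fun v => by
    by_contra h'
    push Not at h'
    have : v.1 = 0 := Finsupp.ext h'
    exact ha v (by simp only [a, this]; exact h0)
  have ez : ∀ ω v, zr u (Sum.inr v) ω = pairing ω v.1 - 1 := fun ω v => by
    simp [zr_inr, pairing, u, mul_comm]
  have hP : NDP u a := by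
    intro ω I h1 h2 h3 ⟨i, h4⟩
    have h5 : ∀ l, EU u a I l = X l * pderiv l (facePoly f ω) := fun l => by
      rw [facePoly, Finset.sum_filter, ← Finset.sum_coe_sort, map_sum, Finset.mul_sum, EU,
        ← Finset.univ_inter I, ← Finset.sum_ite_mem]
      refine Finset.sum_congr rfl fun v _ => ?_
      rw [apply_ite (pderiv l), mul_ite, map_zero, mul_zero, X_mul_pderiv_monomial, em, smul_monomial]
      exact if_congr (by rw [h3, ez, sub_eq_zero]) (by simp [u, a, mul_comm]) rfl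
    obtain ⟨r, hr⟩ : ∏ j, X j ∈ (Ideal.span (Set.range (EU u a I))).radical := by
      rw [← vanishingIdeal_zeroLocus_eq_radical (K := AlgebraicClosure k)]
      intro x hx
      by_contra h6
      have h7 : ∀ j, x j ≠ 0 := by simpa [Finset.prod_eq_zero_iff] using h6
      obtain ⟨j, hj⟩ := hN ω (fun j => (h2 j).symm.lt_of_le (zr_inl u j ω ▸ h1 _))
        (fun v hv => by simpa [ez] using h1 (Sum.inr ⟨v, hv⟩))
        ⟨i, i.2, by simpa [ez, sub_eq_zero] using (h3 i).1 h4⟩ x h7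
      exact hj (by simpa [h5, h7] using hx _ (Ideal.subset_span ⟨j, rfl⟩))
    exact ⟨r, Ideal.mem_span_range_iff_exists_fun.1 hr⟩
  have hN2 : ND2 u a := by
    rintro I ⟨ω, ⟨h1, h2, h3⟩, h4⟩
    have h5 : (0 : ℝ) < -ω none := by exact_mod_cast neg_pos.2 h1
    have h6 : ∀ j, (0 : ℝ) < ω (some j) / -ω none := fun j => div_pos (by exact_mod_cast h2 j) h5
    have h7 : ∀ i, zr u (Sum.inr i) (fun j => ω (some j) / -ω none) =
        (ω ⬝ᵥ hv u i : ℚ) / -(ω none : ℝ) := fun i => by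
      rw [eq_div_iff h5.ne', zr_inr, dot_hv, sub_mul, Finset.sum_mul]
      simp only [mul_assoc, div_mul_cancel₀ _ h5.ne']
      simp [mul_comm, add_comm]
    refine hP (fun j => ω (some j) / -ω none) I ?_ (fun j => (h6 j).ne') fun i => by
      rw [h7, h4, div_eq_zero_iff, or_iff_left h5.ne', Rat.cast_eq_zero]
    rintro (j | i)
    · exact zr_inl u j _ ▸ (h6 j).le
    · exact h7 i ▸ div_nonneg (by exact_mod_cast h3 i) h5.le
  obtain ⟨S, h3, h4⟩ := exS_mem hu0 hN2 (hP.ndi hu0) (Al := fun p => 0 < p.2 ∧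
      (∀ b, LocalBernsteinEq f b → b.eval (-(p.1 : k) / p.2) = 0) ∧
      ∃ w : Fin n → ℕ, ∑ j, w j = p.1 ∧ ∀ v ∈ f.support, p.2 ≤ ∑ j, w j * v j)
    (fun Z w N h1 h2 h3 h4 => (rootHyp3 hN2 ((support_nonempty.2 hf).elim fun v hv => ⟨⟨v, hv⟩⟩)
      (e.symm ▸ hf) Z w N h1 h2 h3 h4).imp_left fun h => ⟨h.2.1, e ▸ h.2.2, w, rfl, fun v hv => by
        have := h1.1 (.inr ⟨v, hv⟩)
        simp only [zl, Sum.elim_inr, sub_nonneg] at this
        exact_mod_cast this⟩) fun p hp => hp.1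
  rw [e] at h4
  exact ⟨S, h4, h3⟩

end

end Pool.Agent.P.MP_b91a16_ag.St
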