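import Pool.Agent.P.MP_b91a16_ag.St.Bfun

/-! Local Bernstein-Sato equations under formal changes of coordinates. -/

set_option linter.unusedSectionVars false

open MvPolynomial

namespace Pool.Agent.P.MP_b91a16_ag.St

noncomputable section

variable {k σ τ ι : Type} [Field k] [Fintype σ] [DecidableEq σ] [Fintype τ] [DecidableEq τ]

theorem tq_coe (N : ℕ) (p : MvPolynomial τ k) :
    MvPowerSeries.truncTotalAlgHom τ k N p = Ideal.Quotient.mk _ p :=
  (MvPowerSeries.truncTotalAlgHom τ k N).commutes p

/-- Truncation as a homomorphism of algebras. -/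
def tq (N : ℕ) : MvPowerSeries τ k →ₐ[k] MvPolynomial τ k ⧸ idealOfVars τ k ^ N where
  toRingHom := MvPowerSeries.truncTotalAlgHom τ k N
  commutes' c := by simp

theorem tq_apply (N : ℕ) (p : MvPowerSeries τ k) :
    tq N p = Ideal.Quotient.mk _ (p.truncTotal N) := rfl

theorem descent [Fintype ι] (s : Set (Option ι → MvPolynomial τ k)) (c : ι → MvPowerSeries τ k)
    (h : ∀ y ∈ s, (y none : MvPowerSeries τ k) = ∑ i, c i * y (some i)) :
    ∃ (h : MvPolynomial τ k) (a : ι → MvPolynomial τ k), constantCoeff h ≠ 0 ∧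
      ∀ y ∈ s, h * y none = ∑ i, a i * y (some i) := by
  classical
  obtain ⟨t, h1, h2⟩ := (Submodule.fg_span_iff_fg_span_finset_subset s).1
    (IsNoetherian.noetherian (Submodule.span (MvPolynomial τ k) s))
  let I : Submodule (MvPolynomial τ k) (t → MvPolynomial τ k) :=
    Submodule.span _ (Set.range fun i (y : t) => y.1 (some i))
  obtain ⟨r, hr⟩ := ((idealOfVars τ k).mem_iInf_smul_pow_eq_bot_iff
    (I.mkQ fun y : t => y.1 none)).1 ((Submodule.mem_iInf _).2 fun N => by
      have h3 : ∀ y : t, y.1 none - ∑ i, (c i).truncTotal N * y.1 (some i) ∈ idealOfVars τ k ^ N :=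
        fun y => Ideal.Quotient.eq.1 (by
          have := congrArg (MvPowerSeries.truncTotalAlgHom τ k N) (h y (h1 y.2))
          simp only [map_sum, map_mul, tq_coe] at this ⊢
          exact this)
      have h4 : (fun y : t => y.1 none) = ∑ i, (c i).truncTotal N • (fun y : t => y.1 (some i)) +
          ∑ y : t, (y.1 none - ∑ i, (c i).truncTotal N * y.1 (some i)) •
            (Pi.single y 1 : t → MvPolynomial τ k) := by
        funext y
        simp [Pi.single_apply]
      rw [h4, map_add, (Submodule.Quotient.mk_eq_zero I).2 (sum_mem fun i _ =>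
        I.smul_mem _ (Submodule.subset_span ⟨i, rfl⟩)) |> (I.mkQ_apply _).trans, zero_add, map_sum]
      exact sum_mem fun y _ => by
        rw [map_smul]
        exact Submodule.smul_mem_smul (h3 y) Submodule.mem_top)
  rw [← map_smul, I.mkQ_apply, I.mkQ_apply, eq_comm, Submodule.Quotient.eq] at hr
  obtain ⟨a, ha⟩ := (Submodule.mem_span_range_iff_exists_fun _).1 hr
  refine ⟨1 - r, a, by simp [const_of_mem (M := 0) (g := r.1) (by simp)], fun y hy => ?_⟩
  have h3 := Submodule.subset_span (R := MvPolynomial τ k) hy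
  rw [h2] at h3
  clear hy
  induction h3 using Submodule.span_induction with
  | mem y hy => simpa [sub_mul] using (congrFun ha ⟨y, hy⟩).symm
  | zero => simp
  | add y y' _ _ h h' => simp [mul_add, h, h', Finset.sum_add_distrib]
  | smul c y _ h => simp [mul_left_comm _ c, h, Finset.mul_sum]

theorem LB.pull {H : MvPolynomial σ k} {G : MvPolynomial τ k} {φ : σ → MvPowerSeries τ k}
    {e : MvPowerSeries τ k} {B : Matrix τ σ (MvPowerSeries τ k)} {b : Polynomial k}
    (h0 : ∀ a, MvPowerSeries.constantCoeff (φ a) = 0)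
    (hB : (Matrix.of fun a j => MvPowerSeries.pderiv k j (φ a)) * B = 1) (he : IsUnit e)
    (hφ : aeval φ H = e * G) (hb : LB H b) : LB G b := by
  obtain ⟨v, hv⟩ := he.exists_left_inv
  have hm : ∀ m, v ^ m * (e * G) ^ m = (G : MvPowerSeries τ k) ^ m := fun m => by
    rw [← mul_pow, ← mul_assoc, hv, one_mul]
  let T : Submodule (MvPowerSeries τ k) (ℕ → MvPowerSeries τ k) :=
    Submodule.span _ {Φ | ∃ F ∈ Fm G, Φ = fun m => (F m : MvPowerSeries τ k)}
  have t0 : ∀ F ∈ Fm G, (fun m => (F m : MvPowerSeries τ k)) ∈ T := fun F hF =>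
    Submodule.subset_span ⟨F, hF, rfl⟩
  have t1 : ∀ Φ ∈ T, (fun m : ℕ => (m : MvPowerSeries τ k) * Φ m) ∈ T := fun Φ h => by
    induction h using Submodule.span_induction with
    | mem Φ h =>
      obtain ⟨F, hF, rfl⟩ := h
      exact mo (t0 _ (Fm_nat hF)) fun m => by rw [coe_smul, Nat.cast_smul_eq_nsmul, nsmul_eq_mul]
    | zero => exact mo (zero_mem _) (by simp)
    | add F F' _ _ h h' => exact mo (add_mem h h') (by simp [mul_add])
    | smul c F _ h => exact mo (T.smul_mem c h) (by simp [mul_left_comm c])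
  have t2 : ∀ j, ∀ Φ ∈ T, (fun m => MvPowerSeries.pderiv k j (Φ m)) ∈ T := fun j Φ h => by
    induction h using Submodule.span_induction with
    | mem Φ h =>
      obtain ⟨F, hF, rfl⟩ := h
      exact mo (t0 _ (Fm_pderiv hF j)) (by simp [MvPowerSeries.pderiv_coe])
    | zero => exact mo (zero_mem _) (by simp)
    | add F F' _ _ h h' => exact mo (add_mem h h') (by simp)
    | smul c F h' h =>
      exact mo (add_mem (T.smul_mem c h) (T.smul_mem (MvPowerSeries.pderiv k j c) h'))
        (by simp [mul_comm])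
  let L : (ℕ → MvPolynomial σ k) →ₗ[k] ℕ → MvPowerSeries τ k :=
    { toFun := fun F m => v ^ m * aeval φ (F m)
      map_add' := fun F F' => by ext1 m; simp [mul_add]
      map_smul' := fun c F => by ext1 m; simp }
  have h1 : Fm H ≤ (T.restrictScalars k).comap L := by
    refine Fm_le (mo (T := T) (T.smul_mem e (t0 _ Fm_base)) fun m => ?_)
      (fun F hF a => mo (T := T) (T.smul_mem (φ a) hF) fun m => by simp [L, mul_left_comm])
      (fun F hF a => mo (T := T) (sum_mem fun j (_ : j ∈ Finset.univ) => T.smul_mem (B j a)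
        (sub_mem (t2 j _ hF) (T.smul_mem (e * MvPowerSeries.pderiv k j v) (t1 _ hF)))) fun m => ?_)
      fun F hF => mo (T := T) (t1 _ hF) fun m => by simp [L, Nat.cast_smul_eq_nsmul, mul_left_comm]
    · simp only [L, LinearMap.coe_mk, AddHom.coe_mk, map_pow, hφ, Pi.smul_apply, smul_eq_mul,
        coe_pow]
      rw [pow_succ (e * G), ← mul_assoc, hm]
      ring
    · have h2 : ∀ j, MvPowerSeries.pderiv k j (v ^ m * aeval φ (F m)) -
          e * MvPowerSeries.pderiv k j v * (m * (v ^ m * aeval φ (F m))) =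
          v ^ m * MvPowerSeries.pderiv k j (aeval φ (F m)) := fun j => by
        rw [Derivation.leibniz, Derivation.leibniz_pow]
        rcases m with _ | m
        · simp
        · simp only [smul_eq_mul, nsmul_eq_mul, Nat.add_sub_cancel]
          linear_combination (-(MvPowerSeries.pderiv k j v * (m + 1 : ℕ) * v ^ m *
            aeval φ (F (m + 1)))) * hv
      have h3 := fun a' => congrFun (congrFun hB a') a
      simp only [Matrix.mul_apply, Matrix.of_apply, Matrix.one_apply] at h3
      simp only [L, LinearMap.coe_mk, AddHom.coe_mk, Finset.sum_apply, Pi.smul_apply, Pi.sub_apply,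
        smul_eq_mul, h2, chain, Finset.mul_sum]
      rw [Finset.sum_comm]
      simp only [mul_left_comm (B _ _), mul_comm (B _ _), ← Finset.mul_sum, h3]
      simp
  obtain ⟨h, h2, h3⟩ := hb
  obtain ⟨w, hw⟩ : ∃ w, w * aeval φ h = 1 := by
    refine (MvPowerSeries.isUnit_iff_constantCoeff.2 (IsUnit.mk0 _ ?_)).exists_left_inv
    have := MvPolynomial.map_aeval φ MvPowerSeries.constantCoeff h
    simp only [h0] at this
    rw [this]
    simpa [MvPowerSeries.algebraMap_apply] using h2
  have h4 : (fun m : ℕ => ((b.eval (m : k) • G ^ m : MvPolynomial τ k) : MvPowerSeries τ k)) ∈ T :=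
    mo (T.smul_mem w (h1 h3)) fun m => by
      simp only [L, LinearMap.coe_mk, AddHom.coe_mk, map_pow, hφ, Pi.smul_apply, smul_eq_mul,
        coe_pow, map_smul, map_mul, coe_smul, mul_smul_comm]
      rw [mul_left_comm (v ^ m), ← mul_assoc, hw, hm, one_mul]
  obtain ⟨d, c, Φ, h5⟩ := Submodule.mem_span_set'.1 h4
  choose F h6 h7 using fun i => (Φ i).2
  obtain ⟨h', a, h8, h9⟩ := descent (ι := Fin d) (Set.range fun (m : ℕ) o =>
    o.elim (b.eval (m : k) • G ^ m) fun i => F i m) c (by
      rintro _ ⟨m, rfl⟩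
      simpa [h7] using (congrFun h5 m).symm)
  refine ⟨h', h8, mo (sum_mem fun i (_ : i ∈ Finset.univ) => Fm_mul (h6 i) (a i)) fun m => ?_⟩
  simpa using (h9 _ ⟨m, rfl⟩).symm

end

end Pool.Agent.P.MP_b91a16_ag.St
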