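import Pool.Agent.P.MP_b91a16_ag.St.Defs
import Pool.Agent.P.MP_b91a16_ag.St.Newt
import Pool.Agent.P.MP_b91a16_ag.St.Pull

/-! The strong motivic monodromy conjecture for stably nondegenerate polynomials. -/

set_option linter.unusedSectionVars false

open MvPolynomial

namespace Pool.Agent.P.MP_b91a16_ag.St

noncomputable section

variable {k σ τ ρ : Type} [Field k] [Fintype σ] [DecidableEq σ] [Fintype τ] [DecidableEq τ]
  [Fintype ρ] [DecidableEq ρ] {n : ℕ}

theorem coeff_zeta_vol (f : MvPolynomial (Fin n) k) (m : ℕ) :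
    PowerSeries.coeff (m + 1) (zeta f) = vol f (m + 1) 1 := by
  classical
  have e : fpoly (fun (v : f.support) j => v.1 j) (fun v => coeff v.1 f) = f := by
    conv_rhs => rw [f.as_sum, ← Finset.sum_coe_sort]
    exact Finset.sum_congr rfl fun v _ => by
      rw [monomial_eq, Finsupp.prod_fintype _ _ fun _ => pow_zero _]
  have h := hasVol_XP (fun v : f.support => coeff v.1 f) (fun v j => v.1 j) (m + 1)
  rw [e] at h
  rw [zeta, series, PowerSeries.coeff_mk, if_neg m.succ_ne_zero]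
  refine (h.congr fun K _ _ x => ?_).unique (hasVol_vol f _ 1)
  simp only [XP, GG_zero, e, CP_iff', apply_ite (algebraMap k K), map_one, map_zero]
  rfl

theorem zeta_mem_of {f : MvPolynomial (Fin n) k} {S : Finset (ℕ × ℕ)}
    (h : ∀ d, exS f d ∈ poleRing k S) : zeta f ∈ poleRing k (insert (1, 1) S) := by
  let D : PowerSeries (Mot k) := 1 - PowerSeries.C (Linv k ^ 1) * PowerSeries.X ^ 1
  have h1 : PowerSeries.invOfUnit D 1 * D = 1 :=
    (mul_comm _ _).trans (PowerSeries.mul_invOfUnit D 1 (by simp [D]))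
  have h2 : D * PowerSeries.mk (vol f · 0) = algebraMap _ _ (vol f 0 0) + exS f 0 := by
    ext m
    rcases m with _ | m <;> simp [D, exS, ex, sub_mul, mul_assoc, PowerSeries.coeff_succ_X_mul]
  have h3 : zeta f = exS f 1 + Linv k • (PowerSeries.X * PowerSeries.mk (vol f · 0)) := by
    ext m
    rcases m with _ | m
    · simp [zeta, series, exS]
    · simp [coeff_zeta_vol, exS, ex, PowerSeries.coeff_succ_X_mul]
  have h4 := fun d => poleRing_mono (Finset.subset_insert (1, 1) S) (h d)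
  rw [h3, ← one_mul (PowerSeries.mk _), ← h1, mul_assoc, h2]
  exact add_mem (h4 1) (Subalgebra.smul_mem _ (mul_mem (X_mem_poleRing _) (mul_mem
    (Algebra.subset_adjoin (Or.inr ⟨(1, 1), Finset.mem_insert_self _ _, h1⟩))
    (add_mem (Subalgebra.algebraMap_mem _ _) (h4 0)))) _)

theorem rescale_mem {S : Finset (ℕ × ℕ)} {r : ℕ} (hS : ∀ p ∈ S, r * p.2 ≤ p.1)
    {F : PowerSeries (Mot k)} (h : F ∈ poleRing k S) :
    PowerSeries.rescale (algebraMap (K0 k) (Mot k) (cls k (Polynomial k)) ^ r) F ∈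
      poleRing k (S.image fun p => (p.1 - r * p.2, p.2)) := by
  have hC : ∀ a c : Mot k, PowerSeries.rescale a (PowerSeries.C c) = PowerSeries.C c :=
    fun a c => by
      ext m
      rcases m with _ | m <;> simp
  induction h using Algebra.adjoin_induction with
  | mem F h =>
    rcases h with rfl | ⟨p, hp, h⟩
    · rw [PowerSeries.rescale_X]
      exact mul_mem (Subalgebra.algebraMap_mem _ _) (X_mem_poleRing _)
    · refine Algebra.subset_adjoin (Or.inr ⟨_, Finset.mem_image_of_mem _ hp, ?_⟩)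
      obtain ⟨q, hq⟩ := Nat.exists_eq_add_of_le (hS p hp)
      have := congrArg (PowerSeries.rescale
        (algebraMap (K0 k) (Mot k) (cls k (Polynomial k)) ^ r)) h
      rwa [map_mul, map_sub, map_one, map_mul, hC, map_pow _ PowerSeries.X, PowerSeries.rescale_X, mul_pow,
        ← mul_assoc (PowerSeries.C _), ← map_pow PowerSeries.C, ← map_mul PowerSeries.C, ← pow_mul, hq, pow_add, mul_right_comm, ← mul_pow,
        mul_comm (Linv k), L_mul_Linv, one_pow, one_mul, show q = p.1 - r * p.2 by omega] at this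
  | algebraMap c => exact (hC _ c).symm ▸ Subalgebra.algebraMap_mem _ c
  | add F G _ _ h h' => exact map_add (PowerSeries.rescale _) F G ▸ add_mem h h'
  | mul F G _ _ h h' => exact map_mul (PowerSeries.rescale _) F G ▸ mul_mem h h'

theorem exS_eq {f : MvPolynomial σ k} {G : MvPolynomial τ k} {c : k} (h : Eqv (hyp ρ f) G c)
    (hc : c ≠ 0) (d : k) : exS f d = Linv k ^ Fintype.card ρ • PowerSeries.rescale
      (algebraMap (K0 k) (Mot k) (cls k (Polynomial k)) ^ Fintype.card ρ) (exS G (d / c)) := by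
  ext m
  rcases m with _ | m
  · simp [exS]
  have h1 : ex G m (d / c) = ex (hyp ρ f) m d := by rw [ex, ex, h.vol hc, h.vol hc, zero_div]
  simp only [exS, PowerSeries.coeff_succ_X_mul, PowerSeries.coeff_mk, map_smul,
    PowerSeries.coeff_rescale, smul_eq_mul, h1, ex_hyp]
  rw [← mul_assoc, ← mul_assoc, mul_right_comm (Linv k ^ _), ← pow_add, ← pow_mul,
    add_comm (Fintype.card ρ), ← Nat.mul_succ, ← mul_pow, mul_comm (Linv k), L_mul_Linv, one_pow, one_mul]

theorem eqv_of {H : MvPolynomial σ k} {G : MvPolynomial τ k} {φ : σ → MvPowerSeries τ k}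
    {e : MvPowerSeries τ k} {B : Matrix τ σ k} (h0 : ∀ a, MvPowerSeries.constantCoeff (φ a) = 0)
    (h1 : (Matrix.of fun a j => MvPowerSeries.coeff (Finsupp.single j 1) (φ a)) * B = 1)
    (h2 : B * (Matrix.of fun a j => MvPowerSeries.coeff (Finsupp.single j 1) (φ a)) = 1)
    (hφ : aeval φ H = e * G) : Eqv H G (MvPowerSeries.constantCoeff e) := fun M => by
  have h3 : (Matrix.of fun a j => lin ((φ a).truncTotal (M + 2)) j) =
      Matrix.of fun a j => MvPowerSeries.coeff (Finsupp.single j 1) (φ a) := by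
    ext a j
    simp [lin_eq, MvPowerSeries.coeff_truncTotal]
  refine ⟨fun a => (φ a).truncTotal (M + 2), e.truncTotal (M + 2), ⟨fun a => ?_, B, h3 ▸ h1,
    h3 ▸ h2⟩, ?_, Ideal.pow_le_pow_right (Nat.le_add_right M 2) (Ideal.Quotient.eq.1 ?_)⟩
  · simp [MvPowerSeries.constantCoeff_truncTotal_eq_ite, h0]
  · simp [MvPowerSeries.constantCoeff_truncTotal_eq_ite]
  · have h4 := congrArg (tq (M + 2)) hφ
    rw [algHom_aeval _ _ _ fun a => tq_apply _ _, map_mul, tq_apply] at h4
    rw [map_mul, ← tq_coe _ G]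
    exact (algHom_aeval (Ideal.Quotient.mkₐ k _) _ _ (fun a => rfl) H).trans h4

theorem exists_inv {S : Type} [CommRing S] {A : Matrix τ τ S} (h : IsUnit A.det) (ε : σ ≃ τ) :
    ∃ B : Matrix τ σ S, A.submatrix ε id * B = 1 ∧ B * A.submatrix ε id = 1 :=
  ⟨A⁻¹.submatrix id ε, (Matrix.submatrix_mul_equiv _ _ _ (.refl τ) _).trans (by
    rw [Matrix.mul_nonsing_inv _ h, Matrix.submatrix_one_equiv]), by
    rw [Matrix.submatrix_mul_equiv, Matrix.nonsing_inv_mul _ h, Matrix.submatrix_id_id]⟩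

theorem main [CharZero k] (f : MvPolynomial (Fin n) k) (hf : f ≠ 0) (h0 : constantCoeff f = 0)
    (hN : StablyNondeg f) :
    ∃ S : Finset (ℕ × ℕ), zeta f ∈ poleRing k S ∧ ∀ p ∈ S, 0 < p.1 ∧ 0 < p.2 ∧
      ∀ b, LocalBernsteinEq f b → b.eval (-(p.1 : k) / p.2) = 0 := by
  have h11 : ∀ b, LocalBernsteinEq f b → b.eval (-((1 : ℕ) : k) / (1 : ℕ)) = 0 := fun b hb => by
    simpa using root_neg_one_loc hf h0 hb
  by_cases h1 : ∀ j, lin f j = 0
  swap
  · obtain ⟨j, hj⟩ := not_forall.1 h1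
    exact ⟨_, zeta_mem_of (S := ∅) fun d => mul_mem (X_mem_poleRing _)
      (mem_poleRing_of_eventually _ 0 (by simp [ex_smooth hj])), by simpa using h11⟩
  obtain ⟨r, φ, e, G, h2, h3, h4, h5, h6⟩ := hN
  let ε : Fin n ⊕ Fin r ⊕ Fin r ≃ Fin (n + r + r) := (Equiv.sumAssoc _ _ _).symm.trans
    ((finSumFinEquiv.sumCongr (.refl _)).trans finSumFinEquiv)
  have h7 : aeval (φ ∘ ε) (hyp (Fin r) f) = e * G := by
    rw [← h6, aeval_hyp]
    simp [stab, ε, aeval_rename, Function.comp_def]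
  obtain ⟨B, h8, h9⟩ := exists_inv (IsUnit.mk0 _ h3) ε
  have h10 := eqv_of (φ := φ ∘ ε) (fun a => h2 _) h8 h9 h7
  obtain ⟨B', h11', -⟩ := exists_inv (A := Matrix.of fun a j => MvPowerSeries.pderiv k j (φ a))
    (MvPowerSeries.isUnit_iff_constantCoeff.2 (IsUnit.mk0 _ (by
      rw [RingHom.map_det]
      convert h3 using 2
      ext a j
      simp [← MvPowerSeries.coeff_zero_eq_constantCoeff_apply, MvPowerSeries.coeff_pderiv]))) ε
  have h12 : ∀ b, LocalBernsteinEq f b → LocalBernsteinEq G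
      ((Polynomial.X + 1) * b.comp (Polynomial.X + (r : Polynomial k))) := fun b hb => by
    simpa using LB_iff.1 (LB.pull (φ := φ ∘ ε) (fun a => h2 _) h11'
      (MvPowerSeries.isUnit_iff_constantCoeff.2 (IsUnit.mk0 _ h4)) h7 (LB_iff.2 hb).hyp)
  obtain ⟨S, h13, h14⟩ := newt G (fun h => by
    simpa using h10.pos h4 hf h0 h1 (w := 0) one_pos (by simp [h])) (by
      obtain ⟨ψ, e', h, h', h''⟩ := h10 3
      exact (sing h (h' ▸ h4) h0 h1 h'').1) h5
  have h15 : ∀ p ∈ S, r * p.2 < p.1 := fun p hp => by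
    obtain ⟨h, -, w, h', h''⟩ := h14 p hp
    simpa [h'] using h10.pos h4 hf h0 h1 h h''
  refine ⟨_, zeta_mem_of (S := S.image fun p => (p.1 - r * p.2, p.2)) fun d => ?_, fun p hp => ?_⟩
  · rw [exS_eq h10 h4, Fintype.card_fin]
    exact Subalgebra.smul_mem _ (rescale_mem (fun p hp => (h15 p hp).le) (h13 _)) _
  replace hp := (Finset.mem_insert.1 hp).imp_right Finset.mem_image.1
  obtain rfl | ⟨p, hp, rfl⟩ := hp
  · exact ⟨one_pos, one_pos, h11⟩
  have h16 := h15 p hp
  have h17 : (p.2 : k) ≠ 0 := Nat.cast_ne_zero.2 (h14 p hp).1.ne'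
  refine ⟨Nat.sub_pos_of_lt h16, (h14 p hp).1, fun b hb => ?_⟩
  have h18 := (h14 p hp).2.1 _ (h12 b hb)
  simp only [Polynomial.eval_mul, Polynomial.eval_add, Polynomial.eval_X, Polynomial.eval_one,
    Polynomial.eval_comp, Polynomial.eval_natCast, mul_eq_zero] at h18
  rw [show -((p.1 - r * p.2 : ℕ) : k) / p.2 = -(p.1 : k) / p.2 + r by
    rw [Nat.cast_sub h16.le]; push_cast; field_simp; ring]
  refine h18.elim (fun h => ?_) id
  have h19 : p.1 = p.2 := Nat.cast_injective (R := k) (by field_simp at h; linear_combination -h)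
  obtain rfl : r = 0 := by
    rw [h19] at h16
    exact Nat.lt_one_iff.1 (lt_of_mul_lt_mul_right (by simpa using h16) (Nat.zero_le p.2))
  simpa [eq_neg_of_add_eq_zero_left h] using h11 b hb

end

end Pool.Agent.P.MP_b91a16_ag.St
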