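import Pool.Agent.P.MP_b91a16_ag.St.Pos

/-! Local Bernstein-Sato equations under stabilisation. -/

set_option linter.unusedSectionVars false

open MvPolynomial

namespace Pool.Agent.P.MP_b91a16_ag.St

noncomputable section

variable {k σ τ ρ : Type} [Field k] [Fintype σ] [DecidableEq σ] [Fintype τ] [DecidableEq τ]
  [Fintype ρ] [DecidableEq ρ]

variable (k σ) in
/-- The Weyl algebra. -/
def Wl : Subalgebra k (Module.End k (MvPolynomial σ k)) :=
  Algebra.adjoin k
    (Set.range (fun j : σ => LinearMap.mulLeft k (X j)) ∪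
      Set.range (fun j : σ => (pderiv j).toLinearMap))

/-- The families `P(m) g^(m+1)`. -/
def Fm (g : MvPolynomial σ k) : Submodule k (ℕ → MvPolynomial σ k) :=
  Submodule.span k {F | ∃ i : ℕ, ∃ P ∈ Wl k σ, F = fun m : ℕ => (m : k) ^ i • P (g ^ (m + 1))}

def LB (g : MvPolynomial σ k) (b : Polynomial k) : Prop :=
  ∃ h, constantCoeff h ≠ 0 ∧ (fun m : ℕ => b.eval (m : k) • (h * g ^ m)) ∈ Fm g

theorem mo {S M : Type} [Semiring S] [AddCommMonoid M] [Module S M] {T : Submodule S (ℕ → M)}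
    {F F' : ℕ → M} (h : F ∈ T) (e : ∀ m, F m = F' m) : F' ∈ T := funext e ▸ h

variable {g : MvPolynomial σ k} {F : ℕ → MvPolynomial σ k}

theorem Fm_base : (fun m => g ^ (m + 1)) ∈ Fm g :=
  Submodule.subset_span ⟨0, 1, one_mem _, by simp⟩

theorem Fm_op (h : F ∈ Fm g) {P : Module.End k (MvPolynomial σ k)} (hP : P ∈ Wl k σ) :
    (fun m => P (F m)) ∈ Fm g := by
  induction h using Submodule.span_induction with
  | mem F h =>
    obtain ⟨i, Q, hQ, rfl⟩ := h
    exact Submodule.subset_span ⟨i, P * Q, mul_mem hP hQ, by simp⟩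
  | zero => exact mo (zero_mem _) (by simp)
  | add F F' _ _ h h' => exact mo (add_mem h h') (by simp)
  | smul c F _ h => exact mo (Submodule.smul_mem _ c h) (by simp)

theorem Fm_nat (h : F ∈ Fm g) : (fun m : ℕ => (m : k) • F m) ∈ Fm g := by
  induction h using Submodule.span_induction with
  | mem F h =>
    obtain ⟨i, Q, hQ, rfl⟩ := h
    exact Submodule.subset_span ⟨i + 1, Q, hQ, by simp [pow_succ', mul_smul]⟩
  | zero => exact mo (zero_mem _) (by simp)
  | add F F' _ _ h h' => exact mo (add_mem h h') (by simp)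
  | smul c F _ h => exact mo (Submodule.smul_mem _ c h) (by simp [smul_comm c])

theorem Fm_poly (h : F ∈ Fm g) (p : Polynomial k) :
    (fun m : ℕ => p.eval (m : k) • F m) ∈ Fm g := by
  induction p using Polynomial.induction_on with
  | C c => exact mo (Submodule.smul_mem _ c h) (by simp)
  | add p q hp hq => exact mo (add_mem hp hq) (by simp [add_smul])
  | monomial n c ih => simpa [pow_succ', smul_smul, mul_left_comm] using Fm_nat ih

theorem Fm_pderiv (h : F ∈ Fm g) (j : σ) : (fun m => pderiv j (F m)) ∈ Fm g :=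
  Fm_op h (Algebra.subset_adjoin (Or.inr ⟨j, rfl⟩))

theorem Fm_mul (h : F ∈ Fm g) (p : MvPolynomial σ k) : (fun m => p * F m) ∈ Fm g := by
  induction p using MvPolynomial.induction_on generalizing F with
  | C c => exact mo (Submodule.smul_mem _ c h) (by simp [smul_eq_C_mul])
  | add p q hp hq => exact mo (add_mem (hp h) (hq h)) (by simp [add_mul])
  | mul_X p j ih =>
    simpa [mul_assoc] using ih (Fm_op h (Algebra.subset_adjoin (Or.inl ⟨j, rfl⟩)))

theorem Fm_le {T : Submodule k (ℕ → MvPolynomial σ k)} (h0 : (fun m => g ^ (m + 1)) ∈ T)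
    (h1 : ∀ F ∈ T, ∀ j, (fun m => X j * F m) ∈ T) (h2 : ∀ F ∈ T, ∀ j, (fun m => pderiv j (F m)) ∈ T)
    (h3 : ∀ F ∈ T, (fun m : ℕ => (m : k) • F m) ∈ T) : Fm g ≤ T := by
  have key : ∀ P ∈ Wl k σ, ∀ F ∈ T, (fun m => P (F m)) ∈ T := fun P hP => by
    induction hP using Algebra.adjoin_induction with
    | mem P hP =>
      rcases hP with ⟨j, rfl⟩ | ⟨j, rfl⟩
      exacts [fun F hF => h1 F hF j, fun F hF => h2 F hF j]
    | algebraMap c => exact fun F hF => T.smul_mem c hF
    | add P Q _ _ hP hQ => exact fun F hF => add_mem (hP F hF) (hQ F hF)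
    | mul P Q _ _ hP hQ => exact fun F hF => hP _ (hQ F hF)
  rw [Fm, Submodule.span_le]
  rintro _ ⟨i, P, hP, rfl⟩
  induction i with
  | zero => simpa using key P hP _ h0
  | succ i ih => simpa [pow_succ', mul_smul] using h3 _ ih

theorem LB_iff {n : ℕ} {g : MvPolynomial (Fin n) k} {b : Polynomial k} :
    LB g b ↔ LocalBernsteinEq g b := by
  constructor
  · rintro ⟨h, h0, h1⟩
    have key : ∀ F ∈ Fm g, ∃ Q : ℕ →₀ Module.End k (MvPolynomial (Fin n) k),
        (∀ i, Q i ∈ weyl k n) ∧ ∀ m : ℕ, (Q.sum fun i P => (m : k) ^ i • P (g ^ (m + 1))) = F m := by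
      intro F hF
      induction hF using Submodule.span_induction with
      | mem F h =>
        obtain ⟨i, P, hP, rfl⟩ := h
        refine ⟨.single i P, fun j => ?_, by simp⟩
        rw [Finsupp.single_apply]
        split_ifs
        exacts [hP, zero_mem _]
      | zero => exact ⟨0, fun _ => zero_mem _, by simp⟩
      | add F F' _ _ h h' =>
        obtain ⟨Q, h1, h2⟩ := h
        obtain ⟨Q', h1', h2'⟩ := h'
        exact ⟨Q + Q', fun i => add_mem (h1 i) (h1' i), fun m => by
          rw [Finsupp.sum_add_index' (by simp) (by simp), h2, h2', Pi.add_apply]⟩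
      | smul c F _ h =>
        obtain ⟨Q, h1, h2⟩ := h
        exact ⟨c • Q, fun i => Subalgebra.smul_mem _ (h1 i) c, fun m => by
          rw [Finsupp.sum_smul_index' (by simp), Pi.smul_apply, ← h2, Finsupp.smul_sum]
          simp [smul_comm c]⟩
    obtain ⟨Q, h2, h3⟩ := key _ h1
    refine ⟨h, Q.support.sup id + 1, fun i => Q i, h0, fun i => h2 i, fun m => ?_⟩
    rw [← h3, Finsupp.sum_of_support_subset _ (s := Finset.range (Q.support.sup id + 1))
      (fun i hi => Finset.mem_range.2 (Nat.lt_succ_of_le (Finset.le_sup (f := id) hi))) _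
      (by simp), Finset.sum_range]
  · rintro ⟨h, d, P, h0, h1, h2⟩
    refine ⟨h, h0, ?_⟩
    rw [← funext h2, ← Finset.sum_fn]
    exact sum_mem fun i _ => Submodule.subset_span ⟨i, P i, h1 i, rfl⟩

variable (k σ ρ) in
/-- The Euler operator in the first group of new variables. -/
def eul : Derivation k (MvPolynomial (σ ⊕ ρ ⊕ ρ) k) (MvPolynomial (σ ⊕ ρ ⊕ ρ) k) :=
  ∑ i : ρ, (X (.inr (.inl i)) : MvPolynomial (σ ⊕ ρ ⊕ ρ) k) • pderiv (.inr (.inl i))

theorem eul_apply (p : MvPolynomial (σ ⊕ ρ ⊕ ρ) k) :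
    eul k σ ρ p = ∑ i : ρ, X (.inr (.inl i)) * pderiv (.inr (.inl i)) p := by
  rw [eul, ← Derivation.coeFnAddMonoidHom_apply, map_sum, Finset.sum_apply]
  rfl

variable (k σ ρ) in
def qq : MvPolynomial (σ ⊕ ρ ⊕ ρ) k := ∑ i : ρ, X (.inr (.inl i)) * X (.inr (.inr i))

theorem eul_term (p : MvPolynomial σ k) (j : ℕ) :
    eul k σ ρ (rename Sum.inl p * qq k σ ρ ^ j) = (j : k) • (rename Sum.inl p * qq k σ ρ ^ j) := by
  have h1 : eul k σ ρ (qq k σ ρ) = qq k σ ρ := by
    simp [eul_apply, qq, pderiv_X, Pi.single_apply, mul_comm]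
  have h2 : eul k σ ρ (rename Sum.inl p) = 0 := by simp [eul_apply, pderiv_rename_inr]
  rw [Derivation.leibniz, h2, Derivation.leibniz_pow, h1, smul_zero, add_zero,
    Nat.cast_smul_eq_nsmul]
  rcases j with _ | j <;> simp [pow_succ, mul_left_comm]

variable (ρ) in
/-- The transfer of families to the stabilisation. -/
def tr : (ℕ → MvPolynomial σ k) →ₗ[k] ℕ → MvPolynomial (σ ⊕ ρ ⊕ ρ) k where
  toFun F m := ∑ j ∈ Finset.range (m + 1), ((m + 1) * m.choose j : k) •
    (rename Sum.inl (F (m - j)) * qq k σ ρ ^ j)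
  map_add' F F' := by
    ext1 m
    simp [add_mul, Finset.sum_add_distrib]
  map_smul' c F := by
    ext1 m
    simp [Finset.smul_sum, smul_comm c]

theorem tr_apply (F : ℕ → MvPolynomial σ k) (m : ℕ) : tr ρ F m = ∑ j ∈ Finset.range (m + 1),
    ((m + 1) * m.choose j : k) • (rename Sum.inl (F (m - j)) * qq k σ ρ ^ j) := rfl

theorem tr_nat (F : ℕ → MvPolynomial σ k) (m : ℕ) :
    tr ρ (fun m : ℕ => (m : k) • F m) m = (m : k) • tr ρ F m - eul k σ ρ (tr ρ F m) := by
  simp only [tr_apply, map_sum, Derivation.map_smul, eul_term, Finset.smul_sum,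
    ← Finset.sum_sub_distrib]
  refine Finset.sum_congr rfl fun j hj => ?_
  rw [Nat.cast_sub (Finset.mem_range_succ_iff.1 hj), map_smul, smul_mul_assoc]
  module

theorem hyp_pow (f : MvPolynomial σ k) (m : ℕ) : hyp ρ f ^ m = ∑ j ∈ Finset.range (m + 1),
    (m.choose j : k) • (rename Sum.inl (f ^ (m - j)) * qq k σ ρ ^ j) := by
  rw [hyp, add_comm, add_pow]
  exact Finset.sum_congr rfl fun j _ => by simp [qq, smul_eq_C_mul, mul_comm]

theorem Fm_eul {H : MvPolynomial (σ ⊕ ρ ⊕ ρ) k} {F : ℕ → MvPolynomial (σ ⊕ ρ ⊕ ρ) k}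
    (h : F ∈ Fm H) : (fun m => eul k σ ρ (F m)) ∈ Fm H := by
  simp only [eul_apply, ← Finset.sum_fn]
  exact sum_mem fun i _ => Fm_mul (Fm_pderiv h _) _

theorem succ_eul (f : MvPolynomial σ k) : (fun m : ℕ => ((m + 1 : k) • (eul k σ ρ (hyp ρ f ^ m) +
    (Fintype.card ρ : k) • hyp ρ f ^ m))) ∈ Fm (hyp ρ f) := by
  refine mo (sum_mem fun (i : ρ) (_ : i ∈ Finset.univ) => Fm_pderiv (g := hyp ρ f)
    (Fm_pderiv Fm_base (.inr (.inr i))) (.inr (.inl i))) fun m => ?_
  simp only [Finset.sum_apply, Derivation.leibniz_pow _ _ (m + 1), pderiv_hyp_y, eul_apply,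
    Nat.add_sub_cancel, map_nsmul, smul_eq_mul, Derivation.leibniz, pderiv_X_self, mul_one,
    ← Finset.smul_sum, Finset.sum_add_distrib, Finset.sum_const, Finset.card_univ,
    Nat.cast_smul_eq_nsmul]
  rw [← Nat.cast_succ, Nat.cast_smul_eq_nsmul, add_comm (Fintype.card ρ • _)]

theorem LB.hyp {f : MvPolynomial σ k} {b : Polynomial k} (hb : LB f b) :
    LB (hyp ρ f) ((Polynomial.X + 1) * b.comp (Polynomial.X + (Fintype.card ρ : Polynomial k))) := by
  obtain ⟨h, h0, h1⟩ := hb
  have h2 : Fm f ≤ (Fm (St.hyp ρ f)).comap (tr ρ) := by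
    refine Fm_le (Submodule.mem_comap.2 (mo (sub_mem (Fm_poly Fm_base (Polynomial.X + 1))
      (Fm_eul Fm_base)) fun m => ?_))
      (fun F hF j => Submodule.mem_comap.2 (mo (Fm_mul hF (X (.inl j))) fun m => ?_))
      (fun F hF j => Submodule.mem_comap.2 (mo (Fm_pderiv hF (.inl j)) fun m => ?_)) fun F hF =>
      Submodule.mem_comap.2 (mo (sub_mem (Fm_nat hF) (Fm_eul hF)) fun m => (tr_nat F m).symm)
    · simp only [Pi.sub_apply, hyp_pow, map_sum, Derivation.map_smul, eul_term, Finset.smul_sum,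
        ← Finset.sum_sub_distrib, tr_apply]
      simp only [Polynomial.eval_add, Polynomial.eval_X, Polynomial.eval_one]
      rw [Finset.sum_range_succ, smul_comm, Nat.cast_succ m, sub_self, add_zero]
      refine Finset.sum_congr rfl fun j hj => ?_
      have h3 := Finset.mem_range_succ_iff.1 hj
      have h4 := congrArg (Nat.cast : ℕ → k) (Nat.choose_mul_succ_eq m j)
      rw [show m + 1 - j = m - j + 1 by omega] at h4 ⊢
      push_cast [Nat.cast_sub h3] at h4
      rw [mul_comm (m + 1 : k), h4]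
      module
    · simp [tr_apply, Finset.mul_sum, mul_assoc]
    · simp [tr_apply, pderiv_rename Sum.inl_injective, qq, mul_comm]
  have h3 : ∀ c : Polynomial k, (fun m : ℕ => tr ρ (fun m : ℕ => c.eval (m : k) • f ^ m) m -
      ((m + 1) * c.eval (m + Fintype.card ρ : k)) • St.hyp ρ f ^ m) ∈ Fm (St.hyp ρ f) := fun c => by
    induction c using Polynomial.induction_on with
    | C c =>
      refine mo (zero_mem _) fun m => ?_
      simp only [tr_apply, hyp_pow, Finset.smul_sum, Polynomial.eval_C, map_smul, smul_mul_assoc,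
        ← Finset.sum_sub_distrib]
      exact (Finset.sum_eq_zero fun j _ => by module).symm
    | add p q hp hq =>
      refine mo (add_mem hp hq) fun m => ?_
      simp only [Polynomial.eval_add, add_smul, tr_apply, map_add, Pi.add_apply, mul_add, add_mul,
        smul_add, Finset.sum_add_distrib]
      abel
    | monomial n c ih =>
      refine mo (sub_mem (sub_mem (Fm_nat ih) (Fm_eul ih)) (Fm_poly (succ_eul f)
        ((Polynomial.C c * Polynomial.X ^ n).comp (Polynomial.X + (Fintype.card ρ : Polynomial k)))))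
        fun m => ?_
      have := tr_nat (ρ := ρ)
        (fun m : ℕ => (Polynomial.C c * Polynomial.X ^ n).eval (m : k) • f ^ m) m
      simp only [Polynomial.eval_mul, Polynomial.eval_C, Polynomial.eval_pow, Polynomial.eval_X,
        Pi.sub_apply, Polynomial.eval_comp, Polynomial.eval_add, Polynomial.eval_natCast, map_sub,
        Derivation.map_smul, smul_smul, pow_succ', mul_left_comm c] at this ⊢
      rw [this]
      module
  refine ⟨rename Sum.inl h, by rwa [constantCoeff_rename],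
    mo (sub_mem (h2 h1) (Fm_mul (h3 b) (rename Sum.inl h))) fun m => ?_⟩
  simp [tr_apply, mul_sub, Finset.mul_sum, mul_assoc, Polynomial.eval_comp]

end

end Pool.Agent.P.MP_b91a16_ag.St
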