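import Pool.Agent.P.MP_b91a16_ag.DefsLoc

/-! Stably nondegenerate polynomials. -/

namespace Pool.Agent.P.MP_b91a16_ag.St

noncomputable section

/-- The stabilisation `f(x) + u_1 y_1 + ⋯ + u_r y_r` of `f` in the variables `x, u, y`. -/
def stab {k : Type} [Field k] {n : ℕ} (f : MvPolynomial (Fin n) k) (r : ℕ) :
    MvPolynomial (Fin (n + r + r)) k :=
  MvPolynomial.rename (fun j : Fin n => (j.castAdd r).castAdd r) f +
    ∑ i : Fin r, MvPolynomial.X ((i.natAdd n).castAdd r) * MvPolynomial.X (i.natAdd (n + r))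

/-- `f` is stably nondegenerate: a formal change of coordinates `φ` at the origin turns some
stabilisation of `f` into a formal unit `e` times a nondegenerate polynomial `G`. -/
def StablyNondeg {k : Type} [Field k] {n : ℕ} (f : MvPolynomial (Fin n) k) : Prop :=
  ∃ (r : ℕ) (φ : Fin (n + r + r) → MvPowerSeries (Fin (n + r + r)) k)
    (e : MvPowerSeries (Fin (n + r + r)) k) (G : MvPolynomial (Fin (n + r + r)) k),
    (∀ a, MvPowerSeries.constantCoeff (φ a) = 0) ∧
    (Matrix.of fun a j => MvPowerSeries.coeff (Finsupp.single j 1) (φ a)).det ≠ 0 ∧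
    MvPowerSeries.constantCoeff e ≠ 0 ∧ Nondeg G ∧
    MvPolynomial.aeval φ (stab f r) = e * (G : MvPowerSeries (Fin (n + r + r)) k)

end

end Pool.Agent.P.MP_b91a16_ag.St
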