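import Pool.Agent.P.MP_b91a16_ag.St.Vol

/-! Volumes of contact loci under stabilisation. -/

set_option linter.unusedSectionVars false

open MvPolynomial

namespace Pool.Agent.P.MP_b91a16_ag.St

noncomputable section

variable {k σ τ ρ α ι : Type} [Field k] [Fintype σ] [DecidableEq σ] [Fintype τ] [DecidableEq τ]
  [Fintype ρ] [DecidableEq ρ]

theorem split_multi {P : Pred k ι} {v : Mot k} (h : HasVol P v) (s : Finset α)
    (E : α → MvPolynomial ι k) :
    ∃ v₁ v₂, HasVol (k := k) (fun K _ _ x => P K x ∧ ∀ a ∈ s, aeval x (E a) = 0) v₁ ∧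
      HasVol (k := k) (fun K _ _ x => P K x ∧ ∃ a ∈ s, aeval x (E a) ≠ 0) v₂ ∧ v = v₁ + v₂ := by
  classical
  induction s using Finset.induction_on with
  | empty => exact ⟨v, 0, by simpa using h, by simpa using hasVol_false, by simp⟩
  | insert a s _ ih =>
    obtain ⟨v₁, v₂, h₁, h₂, rfl⟩ := ih
    obtain ⟨w₁, w₂, g₁, g₂, rfl⟩ := h₁.split (E a)
    refine ⟨w₁, w₂ + v₂, g₁.congr fun K _ _ x => ?_, (g₂.union h₂ ?_).congr fun K _ _ x => ?_,
      add_assoc _ _ _⟩
    · simp only [Finset.forall_mem_insert]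
      tauto
    · rintro K _ _ x h1 ⟨-, b, hb, h2⟩
      exact h2 (h1.1.2 b hb)
    · simp only [Finset.exists_mem_insert]
      constructor
      · tauto
      · rintro ⟨h1, h2⟩
        by_cases h3 : ∀ b ∈ s, aeval x (E b) = 0
        · exact Or.inl ⟨⟨h1, h3⟩, h2.resolve_right fun ⟨b, hb, h4⟩ => h4 (h3 b hb)⟩
        · push Not at h3
          exact Or.inr ⟨h1, h3⟩

theorem arc_update {K : Type} [CommRing K] (x : τ × ℕ → K) (j : τ) (l : ℕ) (t : K) :
    arc (Function.update x (j, l) t) = Function.update (arc x) j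
      (arc x j + PowerSeries.X ^ (l + 1) * PowerSeries.C (t - x (j, l))) := by
  funext j'
  rw [arc, ser_update]
  by_cases h : j' = j
  · subst h
    simp only [Function.update_self, arc]
    ring
  · simp only [Function.update_of_ne h, arc]

/-- The normalised volume. -/
def ex (g : MvPolynomial τ k) (m : ℕ) (d : k) : Mot k := vol g (m + 1) d - Linv k * vol g m 0

theorem CP_succ {g : MvPolynomial τ k} {m : ℕ} {d : k} {K : Type} [Field K] [Algebra k K]
    {x : τ × ℕ → K} : CP g (m + 1) d K x ↔ CP g m 0 K x ∧ aeval x (cf g (m + 1) - C d) = 0 := by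
  rw [CP_iff, CP_zero, map_sub, aeval_cf, aeval_C, sub_eq_zero]

theorem ex_smooth {g : MvPolynomial τ k} {j : τ} (h : lin g j ≠ 0) (m : ℕ) (d : k) :
    ex g m d = 0 := by
  have key : ∀ (K : Type) [Field K] [Algebra k K] (x : τ × ℕ → K) (t : K),
      PowerSeries.X ^ (m + 1 + 1) ∣ aeval (arc (Function.update x (j, m) t)) g - aeval (arc x) g -
        PowerSeries.C ((t - x (j, m)) * algebraMap k K (lin g j)) * PowerSeries.X ^ (m + 1) := by
    intro K _ _ x t
    have := taylor (s := PowerSeries.X ^ (m + 1)) (cen_arc x)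
      (cen_arc (Function.update x (j, m) t)) (fun j' => by
        rw [arc_update]
        by_cases e : j' = j <;> simp [e]) g
    rw [← pow_succ, Finset.sum_eq_single j (fun j' _ e => by simp [arc_update, e]) (by simp)]
      at this
    convert this using 2
    simp only [arc_update, Function.update_self, alg_ps, map_mul]
    ring
  refine sub_eq_zero.2 (((hasVol_vol g (m + 1) d).congr fun K _ _ x => CP_succ).unique
    (HasVol.elim_multi {j} (fun j => (j, m)) _ (fun j => C (lin g j)) (by simp) ?_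
      (hasVol_vol g m 0) ?_ (by simpa using fun _ _ _ _ _ => h)))
  · intro K _ _ x t i hi
    obtain rfl := Finset.mem_singleton.1 hi
    have := (dvd_succ_iff.1 (key K x t)).2
    simp only [map_sub, aeval_cf, aeval_C, PowerSeries.coeff_C_mul, PowerSeries.coeff_X_pow_self]
      at this ⊢
    linear_combination this
  · intro K _ _ x t i hi hx
    obtain rfl := Finset.mem_singleton.1 hi
    rw [CP_zero] at hx ⊢
    have := (dvd_sub_left (Dvd.intro_left _ rfl)).1 (dvd_succ_iff.1 (key K x t)).1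
    exact (dvd_sub_left hx).1 this

variable (ρ) in
/-- The stabilisation by hyperbolic planes. -/
def hyp (f : MvPolynomial σ k) : MvPolynomial (σ ⊕ ρ ⊕ ρ) k :=
  rename Sum.inl f + ∑ i : ρ, X (.inr (.inl i)) * X (.inr (.inr i))

theorem aeval_hyp {S : Type} [CommRing S] [Algebra k S] (f : MvPolynomial σ k)
    (γ : σ ⊕ ρ ⊕ ρ → S) : aeval γ (hyp ρ f) =
      aeval (fun j => γ (.inl j)) f + ∑ i, γ (.inr (.inl i)) * γ (.inr (.inr i)) := by
  simp [hyp, aeval_rename, Function.comp_def]

theorem aeval_hyp_update {S : Type} [CommRing S] [Algebra k S] (f : MvPolynomial σ k)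
    (γ : σ ⊕ ρ ⊕ ρ → S) (i : ρ) (s : S) :
    aeval (Function.update γ (.inr (.inr i)) (γ (.inr (.inr i)) + s)) (hyp ρ f) =
      aeval γ (hyp ρ f) + γ (.inr (.inl i)) * s := by
  rw [aeval_hyp, aeval_hyp, add_assoc, ← Finset.add_sum_erase _ _ (Finset.mem_univ i),
    ← Finset.add_sum_erase _ (fun i => γ _ * γ _) (Finset.mem_univ i),
    Finset.sum_congr rfl fun i' hi' => by
      rw [Function.update_of_ne (by simp), Function.update_of_ne (by simpa using hi')]]
  simp
  ring

theorem ex_hyp (f : MvPolynomial σ k) (m : ℕ) (d : k) :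
    ex (hyp ρ f) m d = Linv k ^ (Fintype.card ρ * m) * ex f m d := by
  let Bz : ℕ → Pred k ((σ ⊕ ρ ⊕ ρ) × ℕ) := fun l K _ _ x => ∀ i, ∀ p < l, x (.inr (.inl i), p) = 0
  have hB : ∀ l (K : Type) [Field K] [Algebra k K] x, Bz l K x → ∀ i,
      PowerSeries.X ^ (l + 1) ∣ arc x (.inr (.inl i)) := fun l K _ _ x h i => by
    simpa using (dvd_arc_sub (x := x) (dvd_zero _)).2 (by simpa using h i)
  have key : ∀ l ≤ m, ∃ v w, HasVol (k := k) (fun K _ _ x => CP (hyp ρ f) (m + 1) d K x ∧ Bz l K x) v ∧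
      HasVol (k := k) (fun K _ _ x => CP (hyp ρ f) m 0 K x ∧ Bz l K x) w ∧
      v - Linv k * w = ex (hyp ρ f) m d := by
    intro l hl
    induction l with
    | zero => exact ⟨_, _, by simpa [Bz] using hasVol_vol _ _ _, by simpa [Bz] using hasVol_vol _ _ _,
        rfl⟩
    | succ l ih =>
      obtain ⟨v, w, hv, hw, e⟩ := ih (by omega)
      obtain ⟨v₁, v₂, h₁, h₂, rfl⟩ := split_multi hv Finset.univ fun i => X (.inr (.inl i), l)
      obtain ⟨w₁, w₂, g₁, g₂, rfl⟩ := split_multi hw Finset.univ fun i => X (.inr (.inl i), l)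
      have hb : ∀ (K : Type) [Field K] [Algebra k K] x, Bz (l + 1) K x ↔ Bz l K x ∧
          ∀ i ∈ Finset.univ, aeval x (X (.inr (.inl i), l) : MvPolynomial _ k) = 0 := by
        intro K _ _ x
        simp only [Bz, Nat.lt_succ_iff_lt_or_eq, or_imp, forall_and, forall_eq, Finset.mem_univ,
          aeval_X, true_imp_iff]
      have upd : ∀ (K : Type) [Field K] [Algebra k K] (x : (σ ⊕ ρ ⊕ ρ) × ℕ → K) (t : K) (i : ρ),
          aeval (arc (Function.update x (.inr (.inr i), m - (l + 1)) t)) (hyp ρ f) =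
            aeval (arc x) (hyp ρ f) + PowerSeries.X ^ (m - l) * arc x (.inr (.inl i)) *
              PowerSeries.C (t - x (.inr (.inr i), m - (l + 1))) := fun K _ _ x t i => by
        rw [arc_update, aeval_hyp_update, show m - (l + 1) + 1 = m - l by omega]
        ring
      have h₃ := HasVol.elim_multi Finset.univ (fun i : ρ => (.inr (.inr i), m - (l + 1)))
        (cf (hyp ρ f) (m + 1) - C d) (fun i => X (.inr (.inl i), l)) (by simp)
        (fun K _ _ x t i _ => by
          rw [map_sub, map_sub, aeval_cf, aeval_cf, aeval_C, aeval_C, upd, map_add,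
            PowerSeries.coeff_mul_C, aeval_X, show m + 1 = l + 1 + (m - l) by omega,
            PowerSeries.coeff_X_pow_mul, coeff_arc]
          ring) g₂
        (fun K _ _ x t i _ hx => ⟨⟨CP_zero.2 (by
          rw [upd, show m + 1 = m - l + (l + 1) by omega]
          exact dvd_add (by rw [show m - l + (l + 1) = m + 1 by omega]; exact CP_zero.1 hx.1.1)
            (pow_add (PowerSeries.X : PowerSeries K) _ _ ▸
              (mul_dvd_mul_left _ (hB l K x hx.1.2 i)).mul_right _)),
          by simpa [Bz] using hx.1.2⟩, by simpa using hx.2⟩)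
        fun K _ _ x hx => by simpa using hx.2
      have e₂ : v₂ = Linv k * w₂ := (h₂.congr fun K _ _ x =>
        ⟨fun h => ⟨⟨⟨(CP_succ.1 h.1.1).1, h.1.2⟩, h.2⟩, (CP_succ.1 h.1.1).2⟩,
          fun h => ⟨⟨CP_succ.2 ⟨h.1.1.1, h.2⟩, h.1.1.2⟩, h.1.2⟩⟩).unique h₃
      exact ⟨v₁, w₁, h₁.congr fun K _ _ x => by rw [hb, and_assoc],
        g₁.congr fun K _ _ x => by rw [hb, and_assoc], by linear_combination e - e₂⟩
  obtain ⟨v, w, hv, hw, e⟩ := key m le_rfl
  let ε : σ × ℕ ↪ (σ ⊕ ρ ⊕ ρ) × ℕ := Function.Embedding.inl.prodMap (.refl ℕ)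
  let s : Finset ((σ ⊕ ρ ⊕ ρ) × ℕ) := (Finset.univ ×ˢ Finset.range m).map
    ((Function.Embedding.inl.trans Function.Embedding.inr).prodMap (.refl ℕ))
  have fin : ∀ m' ≤ m + 1, ∀ d' v', HasVol (k := k)
      (fun K _ _ x => CP (hyp ρ f) m' d' K x ∧ Bz m K x) v' →
      v' = Linv k ^ (Fintype.card ρ * m) * vol f m' d' := by
    intro m' hm d' v' h
    have h1 := ((hasVol_vol f m' d').comap ε).and_forall_zero s fun p hp K _ _ x c hx => by
      obtain ⟨q, -, rfl⟩ := Finset.mem_map.1 hp
      rwa [Function.update_comp_eq_of_forall_ne _ _ fun a => by simp [ε, Prod.ext_iff]]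
    rw [Finset.card_map, Finset.card_product, Finset.card_univ, Finset.card_range] at h1
    refine h.unique (h1.congr fun K _ _ x => ?_)
    have h2 : (∀ p ∈ s, x p = 0) ↔ Bz m K x := by
      simp only [s, Finset.forall_mem_map, Finset.mem_product, Finset.mem_univ, Finset.mem_range,
        true_and, Prod.forall]
      rfl
    rw [h2]
    refine and_congr_left fun hx => ?_
    have h3 : PowerSeries.X ^ (m' + 1) ∣ ∑ i, arc x (.inr (.inl i)) * arc x (.inr (.inr i)) :=
      Finset.dvd_sum fun i _ => (pow_dvd_pow _ (Nat.succ_le_succ hm)).trans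
        (pow_succ (PowerSeries.X : PowerSeries K) _ ▸ mul_dvd_mul (hB m K x hx i) (cen_arc x _))
    rw [CP, CP, aeval_hyp, add_sub_right_comm, dvd_add_left h3]
    rfl
  rw [← e, fin _ le_rfl _ _ hv, fin _ (Nat.le_succ m) _ _ hw, ex]
  ring

end

end Pool.Agent.P.MP_b91a16_ag.St
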