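import Pool.Agent.P.MP_b91a16_ag.GFinal

/-! Polynomials along arcs: first order expansion, lifting and uniqueness of jets. -/

set_option linter.unusedSectionVars false

open MvPolynomial

namespace Pool.Agent.P.MP_b91a16_ag.St

noncomputable section

variable {k σ τ α K : Type} [Field k] [Fintype τ] [DecidableEq τ] [CommRing K] [Algebra k K]

/-- The coefficient of the `j`-th variable. -/
def lin (g : MvPolynomial τ k) (j : τ) : k := constantCoeff (pderiv j g)

theorem lin_eq (g : MvPolynomial τ k) (j : τ) : lin g j = g.coeff (Finsupp.single j 1) := by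
  simp [lin, constantCoeff_eq, coeff_pderiv]

theorem lin_add (g g' : MvPolynomial τ k) (j : τ) : lin (g + g') j = lin g j + lin g' j := by
  simp [lin]

theorem lin_mul (g g' : MvPolynomial τ k) (j : τ) :
    lin (g * g') j = constantCoeff g * lin g' j + constantCoeff g' * lin g j := by
  simp [lin]

theorem lin_X (i j : τ) : lin (X i : MvPolynomial τ k) j = if i = j then 1 else 0 := by
  simp [lin, pderiv_X, Pi.single_apply, apply_ite, eq_comm]

theorem lin_sum (s : Finset α) (g : α → MvPolynomial τ k) (j : τ) :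
    lin (∑ a ∈ s, g a) j = ∑ a ∈ s, lin (g a) j := by
  simp [lin]

/-- Arcs that start at the origin. -/
def Cen (γ : τ → PowerSeries K) : Prop := ∀ j, PowerSeries.X ∣ γ j

theorem aeval_congr_dvd {S : Type} [CommRing S] [Algebra k S] {t : S} {γ γ' : σ → S}
    (h : ∀ j, t ∣ γ' j - γ j) (g : MvPolynomial σ k) : t ∣ aeval γ' g - aeval γ g := by
  induction g using MvPolynomial.induction_on with
  | C c => simp
  | add p q hp hq =>
    rw [map_add, map_add, add_sub_add_comm]
    exact dvd_add hp hq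
  | mul_X p i hp =>
    rw [map_mul, map_mul, aeval_X, aeval_X,
      show aeval γ' p * γ' i - aeval γ p * γ i =
        (aeval γ' p - aeval γ p) * γ' i + aeval γ p * (γ' i - γ i) by ring]
    exact dvd_add (hp.mul_right _) ((h i).mul_left _)

theorem dvd_aeval_sub_const {S : Type} [CommRing S] [Algebra k S] {t : S} {γ : σ → S}
    (h : ∀ j, t ∣ γ j) (g : MvPolynomial σ k) :
    t ∣ aeval γ g - algebraMap k S (constantCoeff g) := by
  simpa using aeval_congr_dvd (γ := 0) (γ' := γ) (by simpa using h) g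

theorem dvd_aeval_of_mem {S : Type} [CommRing S] [Algebra k S] {t : S} {γ : σ → S}
    (h : ∀ j, t ∣ γ j) {M : ℕ} {g : MvPolynomial σ k} (hg : g ∈ idealOfVars σ k ^ M) :
    t ^ M ∣ aeval γ g := by
  have h1 : (idealOfVars σ k).map (aeval γ : MvPolynomial σ k →ₐ[k] S) ≤ Ideal.span {t} := by
    rw [Ideal.map_span, Ideal.span_le]
    rintro _ ⟨_, ⟨j, rfl⟩, rfl⟩
    simpa [Ideal.mem_span_singleton] using h j
  have h2 := Ideal.mem_map_of_mem (aeval γ : MvPolynomial σ k →ₐ[k] S) hg
  rw [Ideal.map_pow] at h2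
  have h3 := Ideal.pow_right_mono h1 M h2
  rwa [Ideal.span_singleton_pow, Ideal.mem_span_singleton] at h3

theorem pderiv_mem_pow {M : ℕ} {g : MvPolynomial τ k} (hg : g ∈ idealOfVars τ k ^ (M + 1))
    (j : τ) : pderiv j g ∈ idealOfVars τ k ^ M := by
  rw [mem_pow_idealOfVars_iff'] at hg ⊢
  intro x hx
  rw [coeff_pderiv, hg _ (by simpa using hx), zero_mul]

theorem const_of_mem {M : ℕ} {g : MvPolynomial σ k} (hg : g ∈ idealOfVars σ k ^ (M + 1)) :
    constantCoeff g = 0 :=
  (mem_pow_idealOfVars_iff' _ _).1 hg 0 (by simp)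

/-- First order expansion. -/
theorem taylor {S : Type} [CommRing S] [Algebra k S] {t s : S} {γ γ' : τ → S}
    (h : ∀ j, t ∣ γ j) (h' : ∀ j, t ∣ γ' j) (e : ∀ j, s ∣ γ' j - γ j) (g : MvPolynomial τ k) :
    s * t ∣ aeval γ' g - aeval γ g - ∑ j, algebraMap k S (lin g j) * (γ' j - γ j) := by
  induction g using MvPolynomial.induction_on with
  | C c => simp [lin]
  | add p q hp hq =>
    convert dvd_add hp hq using 1
    simp only [map_add, lin_add, add_mul, Finset.sum_add_distrib]
    ring
  | mul_X p i _ =>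
    have h1 : ∑ j, algebraMap k S (lin (p * X i) j) * (γ' j - γ j) =
        algebraMap k S (constantCoeff p) * (γ' i - γ i) := by
      simp [lin_mul, lin_X, apply_ite, ite_mul]
    rw [h1, map_mul, map_mul, aeval_X, aeval_X, show aeval γ' p * γ' i - aeval γ p * γ i -
        algebraMap k S (constantCoeff p) * (γ' i - γ i) = (aeval γ' p - aeval γ p) * γ' i +
        (γ' i - γ i) * (aeval γ p - algebraMap k S (constantCoeff p)) by ring]
    exact dvd_add (mul_dvd_mul (aeval_congr_dvd e p) (h' i))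
      (mul_dvd_mul (e i) (dvd_aeval_sub_const h p))

theorem dvd_succ_iff {F : PowerSeries K} {m : ℕ} :
    PowerSeries.X ^ (m + 1) ∣ F ↔ PowerSeries.X ^ m ∣ F ∧ PowerSeries.coeff m F = 0 := by
  simp only [PowerSeries.X_pow_dvd_iff]
  exact ⟨fun h => ⟨fun p hp => h p (by omega), h m (by omega)⟩, fun h p hp =>
    (Nat.lt_succ_iff_lt_or_eq.1 hp).elim (h.1 p) fun e => e ▸ h.2⟩

theorem alg_ps (c : k) : algebraMap k (PowerSeries K) c = PowerSeries.C (algebraMap k K c) :=
  PowerSeries.algebraMap_apply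

/-- Lifting of jets. -/
theorem jet_surj {φ : α → MvPolynomial τ k} (h0 : ∀ a, constantCoeff (φ a) = 0)
    (hs : ∀ c : α → K, ∃ v : τ → K, ∀ a, ∑ j, algebraMap k K (lin (φ a) j) * v j = c a)
    {c : α → PowerSeries K} (hc : ∀ a, PowerSeries.X ∣ c a) (m : ℕ) :
    ∃ γ : τ → PowerSeries K, Cen γ ∧ ∀ a, PowerSeries.X ^ (m + 1) ∣ aeval γ (φ a) - c a := by
  induction m with
  | zero => exact ⟨0, fun _ => dvd_zero _, fun a => by simpa [h0] using hc a⟩
  | succ m ih =>
    obtain ⟨γ, h1, h2⟩ := ih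
    obtain ⟨v, hv⟩ := hs fun a => PowerSeries.coeff (m + 1) (c a - aeval γ (φ a))
    have h3 : Cen fun j => γ j + PowerSeries.C (v j) * PowerSeries.X ^ (m + 1) := fun j =>
      dvd_add (h1 j) ((dvd_pow_self _ m.succ_ne_zero).mul_left _)
    refine ⟨_, h3, fun a => ?_⟩
    have h4 := taylor (s := PowerSeries.X ^ (m + 1)) h1 h3 (fun j => by simp) (φ a)
    have h5 : PowerSeries.X ^ (m + 1 + 1) ∣ aeval γ (φ a) - c a + PowerSeries.C
        (PowerSeries.coeff (m + 1) (c a - aeval γ (φ a))) * PowerSeries.X ^ (m + 1) :=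
      dvd_succ_iff.2 ⟨dvd_add (h2 a) (Dvd.intro_left _ rfl), by
        rw [map_add, PowerSeries.coeff_C_mul, PowerSeries.coeff_X_pow_self, mul_one, map_sub,
          map_sub]
        ring⟩
    rw [← pow_succ] at h4
    convert dvd_add h4 h5 using 1
    simp only [add_sub_cancel_left, alg_ps, ← hv a, map_sum, map_mul, Finset.sum_mul, mul_assoc]
    ring

/-- Uniqueness of lifts of jets. -/
theorem jet_inj {φ : α → MvPolynomial τ k}
    (hi : ∀ v : τ → K, (∀ a, ∑ j, algebraMap k K (lin (φ a) j) * v j = 0) → v = 0)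
    {γ γ' : τ → PowerSeries K} (h : Cen γ) (h' : Cen γ') (m : ℕ)
    (e : ∀ a, PowerSeries.X ^ m ∣ aeval γ' (φ a) - aeval γ (φ a)) (j : τ) :
    PowerSeries.X ^ m ∣ γ' j - γ j := by
  induction m generalizing j with
  | zero => simp
  | succ m ih =>
    replace ih := ih fun a => (dvd_succ_iff.1 (e a)).1
    refine dvd_succ_iff.2 ⟨ih j, congrFun (hi (fun j => PowerSeries.coeff m (γ' j - γ j))
      fun a => ?_) j⟩
    have h1 := taylor h h' ih (φ a)
    rw [← pow_succ] at h1
    have h2 := (dvd_succ_iff.1 (dvd_sub (e a) h1)).2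
    simpa only [sub_sub_cancel, map_sum, alg_ps, PowerSeries.coeff_C_mul] using h2

/-- The chain rule. -/
theorem chain {S : Type} [CommRing S] [Algebra k S] [Fintype σ] [DecidableEq σ]
    (D : Derivation k S S) (φ : σ → S) (g : MvPolynomial σ k) :
    D (aeval φ g) = ∑ a, aeval φ (pderiv a g) * D (φ a) := by
  induction g using MvPolynomial.induction_on with
  | C c => simp
  | add p q hp hq => simp [hp, hq, add_mul, Finset.sum_add_distrib]
  | mul_X p i hp =>
    simp only [map_mul, aeval_X, Derivation.leibniz, hp, smul_eq_mul, map_add, add_mul,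
      Finset.sum_add_distrib, Finset.mul_sum, pderiv_X, Pi.single_apply, apply_ite,
      map_zero, mul_one, mul_zero, ite_mul, zero_mul, mul_assoc]
    simp

end

end Pool.Agent.P.MP_b91a16_ag.St
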