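import Pool.Agent.P.MP_b91a16_ag.St.Hyp

/-! Weights of a polynomial that is equivalent to a stabilisation. -/

set_option linter.unusedSectionVars false

open MvPolynomial

namespace Pool.Agent.P.MP_b91a16_ag.St

noncomputable section

variable {k σ τ ρ α : Type} [Field k] [Fintype σ] [DecidableEq σ] [Fintype τ] [DecidableEq τ]
  [Fintype ρ] [DecidableEq ρ]

theorem Et.dvd_of_sum {φ : σ → MvPolynomial τ k} (h : Et φ) {γ : τ → PowerSeries k} (hγ : Cen γ)
    {g : σ → PowerSeries k} (M : ℕ)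
    (e : ∀ j, PowerSeries.X ^ M ∣ ∑ a, g a * aeval γ (pderiv j (φ a))) (a : σ) :
    PowerSeries.X ^ M ∣ g a := by
  induction M generalizing a with
  | zero => simp
  | succ M ih =>
    replace ih := ih fun j => (dvd_succ_iff.1 (e j)).1
    obtain ⟨-, B, h1, -⟩ := h
    have h2 : Matrix.vecMul (fun a => PowerSeries.coeff M (g a))
        (Matrix.of fun a j => lin (φ a) j) = 0 := funext fun j => by
      have h3 : PowerSeries.X ^ (M + 1) ∣ ∑ a, g a * (aeval γ (pderiv j (φ a)) -
          algebraMap k _ (lin (φ a) j)) := Finset.dvd_sum fun a _ =>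
        pow_succ (PowerSeries.X : PowerSeries k) _ ▸ mul_dvd_mul (ih a) (dvd_aeval_sub_const hγ _)
      have h4 := (dvd_succ_iff.1 (dvd_sub (e j) h3)).2
      simpa [← Finset.sum_sub_distrib, mul_sub, alg_ps, Matrix.vecMul, dotProduct] using h4
    have h3 := congrArg (Matrix.vecMul · B) h2
    simp only [Matrix.vecMul_vecMul, h1, Matrix.vecMul_one, Matrix.zero_vecMul] at h3
    exact dvd_succ_iff.2 ⟨ih a, congrFun h3 a⟩

theorem pderiv_rename_inr {β : Type} (f : MvPolynomial σ k) (b : β) :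
    pderiv (Sum.inr b) (rename (Sum.inl : σ → σ ⊕ β) f) = 0 := by
  classical
  refine pderiv_eq_zero_of_notMem_vars fun h => ?_
  obtain ⟨j, -, h⟩ := mem_vars_rename _ _ h
  simp at h

theorem pderiv_hyp_u (f : MvPolynomial σ k) (i : ρ) :
    pderiv (.inr (.inl i)) (hyp ρ f) = X (.inr (.inr i)) := by
  simp [hyp, pderiv_rename_inr, pderiv_X, Pi.single_apply]

theorem pderiv_hyp_y (f : MvPolynomial σ k) (i : ρ) :
    pderiv (.inr (.inr i)) (hyp ρ f) = X (.inr (.inl i)) := by
  simp [hyp, pderiv_rename_inr, pderiv_X, Pi.single_apply]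

theorem pderiv_hyp_x (f : MvPolynomial σ k) (j : σ) :
    pderiv (.inl j) (hyp ρ f) = rename Sum.inl (pderiv j f) := by
  simp [hyp, pderiv_rename Sum.inl_injective, pderiv_X]

variable {f : MvPolynomial σ k} {G e : MvPolynomial τ k} {φ : σ ⊕ ρ ⊕ ρ → MvPolynomial τ k}

theorem crit (h : Et φ) {M : ℕ} (hR : aeval φ (hyp ρ f) - e * G ∈ idealOfVars τ k ^ (M + 1))
    {γ : τ → PowerSeries k} (hγ : Cen γ) (h1 : PowerSeries.X ^ M ∣ aeval γ G)
    (h2 : ∀ j, PowerSeries.X ^ M ∣ aeval γ (pderiv j G)) :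
    (∀ b, PowerSeries.X ^ M ∣ aeval γ (φ (.inr b))) ∧
      PowerSeries.X ^ M ∣ aeval (fun j => aeval γ (φ (.inl j))) f := by
  have h3 := h.dvd_of_sum hγ (g := fun a => aeval γ (aeval φ (pderiv a (hyp ρ f)))) M fun j => by
    have h4 := dvd_aeval_of_mem hγ (pderiv_mem_pow hR j)
    rw [map_sub, chain, Derivation.leibniz, map_sub, map_add, smul_eq_mul, smul_eq_mul, map_mul,
      map_mul, dvd_sub_left (dvd_add ((h2 j).mul_left _) (h1.mul_right _))] at h4
    simpa only [map_sum, map_mul] using h4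
  have h4 : ∀ b, PowerSeries.X ^ M ∣ aeval γ (φ (.inr b)) := by
    rintro (i | i)
    · simpa [pderiv_hyp_y] using h3 (.inr (.inr i))
    · simpa [pderiv_hyp_u] using h3 (.inr (.inl i))
  refine ⟨h4, ?_⟩
  have h5 := (pow_dvd_pow _ M.le_succ).trans (dvd_aeval_of_mem hγ hR)
  rwa [map_sub, map_mul, dvd_sub_left (h1.mul_left _), aeval_aeval, aeval_hyp,
    dvd_add_left (Finset.dvd_sum fun i _ => (h4 _).mul_right _)] at h5

theorem sq_dvd_iff {g : MvPolynomial τ k} (h : constantCoeff g = 0) (v : τ → k) :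
    PowerSeries.X ^ 2 ∣ aeval (fun j => PowerSeries.C (v j) * PowerSeries.X) g ↔
      ∑ j, lin g j * v j = 0 := by
  have h1 := taylor (S := PowerSeries k) (s := PowerSeries.X) (t := PowerSeries.X) (γ := 0)
    (γ' := fun j => PowerSeries.C (v j) * PowerSeries.X) (by simp) (by simp) (by simp) g
  rw [← sq, aeval_zero, h, map_zero, sub_zero] at h1
  have h2 : ∑ j, algebraMap k (PowerSeries k) (lin g j) *
      (PowerSeries.C (v j) * PowerSeries.X - (0 : τ → PowerSeries k) j) =
      PowerSeries.C (∑ j, lin g j * v j) * PowerSeries.X := by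
    simp [Finset.sum_mul, mul_assoc]
  rw [dvd_iff_dvd_of_dvd_sub h1, h2, dvd_succ_iff]
  simp

theorem dvd_of_weight {S : Type} [CommRing S] [Algebra k S] {t : S} {γ : τ → S} {w : τ → ℕ}
    (h : ∀ j, 0 < w j → t ∣ γ j) {g : MvPolynomial τ k}
    (hg : ∀ v ∈ g.support, 0 < ∑ j, w j * v j) : t ∣ aeval γ g := by
  rw [g.as_sum, map_sum]
  refine Finset.dvd_sum fun v hv => ?_
  obtain ⟨j, -, hj⟩ := Finset.exists_ne_zero_of_sum_ne_zero (hg v hv).ne'
  rw [aeval_monomial, Finsupp.prod_fintype _ _ fun _ => pow_zero _]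
  exact (((h j (Nat.pos_of_ne_zero (left_ne_zero_of_mul hj))).trans
    (dvd_pow_self _ (right_ne_zero_of_mul hj))).trans
      (Finset.dvd_prod_of_mem (fun j => γ j ^ v j) (Finset.mem_univ j))).mul_left _

theorem weight_pderiv {w : τ → ℕ} {N : ℕ} (hw : ∀ v ∈ G.support, N ≤ ∑ j, w j * v j) (j : τ) :
    ∀ v ∈ (pderiv j G).support, N ≤ ∑ j, w j * v j + w j := fun v hv => by
  rw [mem_support_iff, coeff_pderiv] at hv
  simpa [mul_add, Finset.sum_add_distrib, Finsupp.single_apply] using
    hw _ (mem_support_iff.2 (left_ne_zero_of_mul hv))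

theorem eq_zero_of_arcs [CharZero k] (h : ∀ (c : σ → k) (m : ℕ), PowerSeries.X ^ m ∣
    aeval (fun j => PowerSeries.C (c j) * PowerSeries.X) f) : f = 0 := by
  refine MvPolynomial.funext fun c => ?_
  have h1 : ((aeval (fun j => Polynomial.C (c j) * Polynomial.X) f : Polynomial k) :
      PowerSeries k) = aeval (fun j => PowerSeries.C (c j) * PowerSeries.X) f :=
    algHom_aeval (Polynomial.coeToPowerSeries.algHom k) _ _ (fun j => by simp) f
  have h2 : aeval (fun j => Polynomial.C (c j) * Polynomial.X) f = 0 :=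
    Polynomial.coe_eq_zero_iff.1 (h1.trans (PowerSeries.ext fun p =>
      PowerSeries.X_pow_dvd_iff.1 (h c (p + 1)) p p.lt_succ_self))
  have h3 := algHom_aeval (Polynomial.aeval (1 : k)) (fun j => Polynomial.C (c j) * Polynomial.X)
    c (fun j => by simp) f
  rw [h2, map_zero] at h3
  simpa using h3.symm

/-- The auxiliary family of functions. -/
def fam (φ : σ ⊕ ρ ⊕ ρ → MvPolynomial τ k) (G : MvPolynomial τ k) (p q : τ → Prop) :
    σ ⊕ {j // p j} ⊕ {j // q j} → MvPolynomial τ k :=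
  Sum.elim (fun a => φ (.inl a)) (Sum.elim (fun j => X j.1) fun j => pderiv j.1 G)

theorem sing (h : Et φ) (he : constantCoeff e ≠ 0) (h0 : constantCoeff f = 0)
    (h1 : ∀ j, lin f j = 0) (hR : aeval φ (hyp ρ f) - e * G ∈ idealOfVars τ k ^ 3) :
    constantCoeff G = 0 ∧ ∀ j, lin G j = 0 := by
  have h2 : ∀ g, constantCoeff (aeval φ g) = constantCoeff g := fun g => by
    simpa [h.1] using (algHom_aeval (aeval (0 : τ → k)) φ 0 (fun a => by simp [h.1]) g)
  have h3 := const_of_mem hR
  rw [map_sub, h2, map_mul] at h3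
  have h4 : constantCoeff G = 0 := by simpa [hyp, h0, he] using h3
  refine ⟨h4, fun j => ?_⟩
  have h5 := const_of_mem (pderiv_mem_pow hR j)
  rw [map_sub, map_sub, chain, map_sum, Finset.sum_eq_zero fun a _ => by
    rcases a with a | a | a
    · rw [map_mul, h2, pderiv_hyp_x, constantCoeff_rename, ← lin, h1, zero_mul]
    · simp [pderiv_hyp_u, h.1]
    · simp [pderiv_hyp_y, h.1]] at h5
  simpa [h4, he, lin] using h5

theorem fam_inj (h : Et φ) (he : constantCoeff e ≠ 0) (h0 : constantCoeff f = 0)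
    (h1 : ∀ j, lin f j = 0) (hR : aeval φ (hyp ρ f) - e * G ∈ idealOfVars τ k ^ 3)
    {w : τ → ℕ} {N : ℕ} (hw : ∀ v ∈ G.support, N ≤ ∑ j, w j * v j) (c : ℕ) :
    Function.Injective (Matrix.of fun a j =>
      lin (fam φ G (fun j => c < w j) (fun j => N ≤ w j + c) a) j).mulVecLin := by
  refine (injective_iff_map_eq_zero _).2 fun v hv => ?_
  replace hv := fun a => congrFun hv a
  simp only [Matrix.mulVecLin_apply, Matrix.mulVec, dotProduct, Matrix.of_apply, Pi.zero_apply,
    Sum.forall, fam, Sum.elim_inl, Sum.elim_inr, Subtype.forall] at hv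
  obtain ⟨h2, h3⟩ := sing h he h0 h1 hR
  have h4 := (crit h hR (γ := fun j => PowerSeries.C (v j) * PowerSeries.X) (by simp [Cen])
    ((sq_dvd_iff h2 v).2 (by simp [h3])) fun j => (sq_dvd_iff (h3 j) v).2 (by
      by_cases hj : N ≤ w j + c
      · exact hv.2.2 j hj
      refine Finset.sum_eq_zero fun i _ => ?_
      by_cases hi : c < w i
      · rw [show v i = 0 by simpa [lin_X] using hv.2.1 i hi, mul_zero]
      · rw [lin_eq, notMem_support_iff.1 fun h => ?_, zero_mul]
        have := weight_pderiv hw j _ h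
        simp [Finsupp.single_apply] at this
        omega)).1
  refine h.inj v ?_
  rintro (a | b)
  · exact hv.1 a
  · exact (sq_dvd_iff (h.1 _) v).1 (h4 b)

theorem Eqv.pos [CharZero k] {c : k} (h : Eqv (hyp ρ f) G c) (hc : c ≠ 0) (hf : f ≠ 0)
    (h0 : constantCoeff f = 0) (h1 : ∀ j, lin f j = 0) {w : τ → ℕ} {N : ℕ} (hN : 0 < N)
    (hw : ∀ v ∈ G.support, N ≤ ∑ j, w j * v j) : Fintype.card ρ * N < ∑ j, w j := by
  let A := fun c => Fintype.card {j // c < w j} + Fintype.card {j // N ≤ w j + c}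
  have h2 : ∀ c, 2 * Fintype.card ρ ≤ A c := fun c => by
    obtain ⟨φ, e, h2, rfl, h3⟩ := h 3
    have h4 := LinearMap.finrank_le_finrank_of_injective (fam_inj h2 hc h0 h1 h3 hw c)
    have h5 := h2.card
    simp only [Module.finrank_fintype_fun_eq_card, Fintype.card_sum, A] at h4 h5 ⊢
    omega
  have h3 : 2 * Fintype.card ρ < A 0 := (h2 0).lt_of_ne fun h3 => hf (eq_zero_of_arcs fun a m => by
    obtain ⟨φ, e, h4, rfl, h5⟩ := h (m + 3)
    have h6 := Ideal.pow_le_pow_right (Nat.le_add_left 3 m) h5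
    have h7 := (LinearMap.injective_iff_surjective_of_finrank_eq_finrank (by
      have := h4.card
      simp only [Module.finrank_fintype_fun_eq_card, Fintype.card_sum, A] at this h3 ⊢
      omega)).1 (fam_inj h4 hc h0 h1 h6 hw 0)
    obtain ⟨γ, h8, h9⟩ := jet_surj (K := k) (φ := fam φ G (fun j => 0 < w j) fun j => N ≤ w j + 0)
      (by
        rintro (a | j | j)
        exacts [h4.1 _, constantCoeff_X _ _, (sing h4 hc h0 h1 h6).2 j])
      (fun c => (h7 c).imp fun v hv => congrFun hv)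
      (c := Sum.elim (fun j => PowerSeries.C (a j) * PowerSeries.X) 0) (by simp) (m + 1)
    simp only [Sum.forall, fam, Sum.elim_inl, Sum.elim_inr, Subtype.forall, Pi.zero_apply,
      sub_zero, aeval_X] at h9
    have h10 := (crit h4 h5 h8 (dvd_of_weight h9.2.1 fun v hv => hN.trans_le (hw v hv))
      fun j => by
        by_cases hj : N ≤ w j + 0
        · exact h9.2.2 j hj
        · exact dvd_of_weight h9.2.1 fun v hv => by have := weight_pderiv hw j v hv; omega).2
    exact (pow_dvd_pow _ (by omega)).trans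
      ((dvd_iff_dvd_of_dvd_sub (aeval_congr_dvd h9.1 f)).1 h10))
  have h4 := Finset.sum_lt_sum (s := Finset.range N) (fun c _ => h2 c)
    ⟨0, Finset.mem_range.2 hN, h3⟩
  have h5 : ∑ c ∈ Finset.range N, A c ≤ ∑ j, 2 * w j := by
    simp only [A, Fintype.card_subtype, Finset.card_filter, ← Finset.sum_add_distrib]
    rw [Finset.sum_comm]
    refine Finset.sum_le_sum fun j _ => ?_
    rw [Finset.sum_add_distrib, ← Finset.card_filter, ← Finset.card_filter, two_mul]
    refine add_le_add ((Finset.card_le_card fun c hc => ?_).trans_eq (Finset.card_range _))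
      ((Finset.card_le_card (t := Finset.Ico (N - w j) N) fun c hc => ?_).trans ?_)
    · simpa using (Finset.mem_filter.1 hc).2
    · simp only [Finset.mem_filter, Finset.mem_range, Finset.mem_Ico] at hc ⊢
      omega
    · rw [Nat.card_Ico]
      omega
  rw [Finset.sum_const, Finset.card_range, smul_eq_mul] at h4
  rw [← Finset.mul_sum] at h5
  nlinarith

end

end Pool.Agent.P.MP_b91a16_ag.St
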