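import Pool.Agent.P.MP_b91a16_ag.St.Jet

/-! Volumes of contact loci: invariance under coordinate changes and units. -/

set_option linter.unusedSectionVars false

open MvPolynomial

namespace Pool.Agent.P.MP_b91a16_ag.St

noncomputable section

variable {k σ τ α : Type} [Field k] [Fintype σ] [DecidableEq σ] [Fintype τ] [DecidableEq τ]

def arc {R : Type} [CommRing R] (x : τ × ℕ → R) (j : τ) : PowerSeries R :=
  PowerSeries.X * ser x j

theorem cen_arc {K : Type} [CommRing K] (x : τ × ℕ → K) : Cen (arc x) := fun _ => Dvd.intro _ rfl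

theorem coeff_arc {K : Type} [CommRing K] (x : τ × ℕ → K) (j : τ) (l : ℕ) :
    PowerSeries.coeff (l + 1) (arc x j) = x (j, l) := by
  simp [arc, ser, PowerSeries.coeff_succ_X_mul]

theorem dvd_arc_sub {K : Type} [CommRing K] {x : τ × ℕ → K} {j : τ} {γ : PowerSeries K}
    (h : PowerSeries.X ∣ γ) {M : ℕ} :
    PowerSeries.X ^ (M + 1) ∣ arc x j - γ ↔ ∀ l < M, x (j, l) = PowerSeries.coeff (l + 1) γ := by
  rw [PowerSeries.X_pow_dvd_iff]
  constructor
  · intro H l hl
    have := H (l + 1) (by omega)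
    rwa [map_sub, coeff_arc, sub_eq_zero] at this
  · rintro H (_ | l) hl
    · simpa [arc] using PowerSeries.X_dvd_iff.1 h
    · rw [map_sub, coeff_arc, H l (by omega), sub_self]

/-- Arcs along which `g` is congruent to `d t^m`. -/
def CP (g : MvPolynomial τ k) (m : ℕ) (d : k) : Pred k (τ × ℕ) := fun K _ _ x =>
  PowerSeries.X ^ (m + 1) ∣
    aeval (arc x) g - PowerSeries.C (algebraMap k K d) * PowerSeries.X ^ m

def cf (g : MvPolynomial τ k) (p : ℕ) : MvPolynomial (τ × ℕ) k :=
  PowerSeries.coeff p (aeval (arc (X : τ × ℕ → MvPolynomial (τ × ℕ) k)) g)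

theorem aeval_cf {K : Type} [CommRing K] [Algebra k K] (g : MvPolynomial τ k) (p : ℕ)
    (x : τ × ℕ → K) : aeval x (cf g p) = PowerSeries.coeff p (aeval (arc x) g) := by
  have h : aeval (arc x) g = PowerSeries.mapAlgHom (aeval x : MvPolynomial (τ × ℕ) k →ₐ[k] K)
      (aeval (arc X) g) := by
    refine (algHom_aeval _ _ _ (fun j => ?_) g).symm
    ext p
    rcases p with _ | p <;> simp [arc, ser, PowerSeries.mapAlgHom_apply,
      PowerSeries.coeff_succ_X_mul]
  rw [h, cf, PowerSeries.mapAlgHom_apply, PowerSeries.coeff_map]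
  rfl

theorem CP_iff {g : MvPolynomial τ k} {m : ℕ} {d : k} {K : Type} [Field K] [Algebra k K]
    {x : τ × ℕ → K} : CP g m d K x ↔ PowerSeries.X ^ m ∣ aeval (arc x) g ∧
      PowerSeries.coeff m (aeval (arc x) g) = algebraMap k K d := by
  rw [CP, dvd_succ_iff, map_sub, PowerSeries.coeff_C_mul, PowerSeries.coeff_X_pow_self, mul_one,
    sub_eq_zero, dvd_sub_left (Dvd.intro_left _ rfl)]

theorem CP_zero {g : MvPolynomial τ k} {m : ℕ} {K : Type} [Field K] [Algebra k K]
    {x : τ × ℕ → K} : CP g m 0 K x ↔ PowerSeries.X ^ (m + 1) ∣ aeval (arc x) g := by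
  simp [CP]

theorem CP_iff' {g : MvPolynomial τ k} {m : ℕ} {d : k} {K : Type} [Field K] [Algebra k K]
    {x : τ × ℕ → K} : CP g m d K x ↔ ∀ p ≤ m,
      PowerSeries.coeff p (aeval (arc x) g) = algebraMap k K (if p = m then d else 0) := by
  rw [CP_iff, PowerSeries.X_pow_dvd_iff]
  refine ⟨fun h p hp => ?_, fun h => ⟨fun p hp => ?_, by simpa using h m le_rfl⟩⟩
  · split_ifs with e
    · rw [e, h.2]
    · rw [h.1 p (by omega), map_zero]
  · rw [h p hp.le, if_neg hp.ne, map_zero]

theorem exists_vol (g : MvPolynomial τ k) (m : ℕ) (d : k) : ∃ v, HasVol (CP g m d) v := by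
  obtain ⟨v, h⟩ := (hasVol_true (k := k) (ι := τ × ℕ)).and_forall_eq (Finset.range (m + 1))
    fun p => cf g p - C (if p = m then d else 0)
  refine ⟨v, h.congr fun K _ _ x => ?_⟩
  simp only [CP_iff', true_and, map_sub, aeval_cf, aeval_C, sub_eq_zero, Finset.mem_range,
    Nat.lt_succ_iff]

def vol (g : MvPolynomial τ k) (m : ℕ) (d : k) : Mot k := (exists_vol g m d).choose

theorem hasVol_vol (g : MvPolynomial τ k) (m : ℕ) (d : k) : HasVol (CP g m d) (vol g m d) :=
  (exists_vol g m d).choose_spec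

theorem CP_congr {g : MvPolynomial τ k} {m M : ℕ} {d : k} (hM : m ≤ M) {K : Type} [Field K]
    [Algebra k K] {γ γ' : τ → PowerSeries K} (h : ∀ j, PowerSeries.X ^ (M + 1) ∣ γ' j - γ j) :
    PowerSeries.X ^ (m + 1) ∣ aeval γ g - PowerSeries.C (algebraMap k K d) * PowerSeries.X ^ m ↔
    PowerSeries.X ^ (m + 1) ∣
      aeval γ' g - PowerSeries.C (algebraMap k K d) * PowerSeries.X ^ m := by
  have h1 := (pow_dvd_pow _ (Nat.succ_le_succ hM)).trans (aeval_congr_dvd h g)
  rw [← dvd_add_right h1]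
  exact iff_of_eq (by congr 1; ring)

/-- A polynomial map that fixes the origin and has invertible linear part. -/
def Et (φ : σ → MvPolynomial τ k) : Prop :=
  (∀ a, constantCoeff (φ a) = 0) ∧ ∃ B : Matrix τ σ k,
    (Matrix.of fun a j => lin (φ a) j) * B = 1 ∧ B * (Matrix.of fun a j => lin (φ a) j) = 1

variable {φ : σ → MvPolynomial τ k}

theorem Et.surj (h : Et φ) {K : Type} [CommRing K] [Algebra k K] (c : σ → K) :
    ∃ v : τ → K, ∀ a, ∑ j, algebraMap k K (lin (φ a) j) * v j = c a := by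
  obtain ⟨-, B, h1, -⟩ := h
  refine ⟨(B.map (algebraMap k K)).mulVec c, fun a => ?_⟩
  have := congrFun (Matrix.mulVec_mulVec c
    ((Matrix.of fun a j => lin (φ a) j).map (algebraMap k K)) (B.map (algebraMap k K))) a
  rw [← Matrix.map_mul, h1, Matrix.map_one _ (map_zero _) (map_one _), Matrix.one_mulVec] at this
  exact this

theorem Et.inj (h : Et φ) {K : Type} [CommRing K] [Algebra k K] (v : τ → K)
    (hv : ∀ a, ∑ j, algebraMap k K (lin (φ a) j) * v j = 0) : v = 0 := by
  obtain ⟨-, B, -, h1⟩ := h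
  have := Matrix.mulVec_mulVec v (B.map (algebraMap k K))
    ((Matrix.of fun a j => lin (φ a) j).map (algebraMap k K))
  rw [← Matrix.map_mul, h1, Matrix.map_one _ (map_zero _) (map_one _), Matrix.one_mulVec] at this
  rw [← this]
  exact (congrArg _ (funext hv)).trans (Matrix.mulVec_zero _)

theorem Et.card (h : Et φ) : Fintype.card σ = Fintype.card τ :=
  h.2.elim fun _ h => Matrix.square_of_invertible _ _ h.1 h.2

theorem Et.cen (h : Et φ) {K : Type} [CommRing K] [Algebra k K] {γ : τ → PowerSeries K}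
    (hγ : Cen γ) : Cen fun a => aeval γ (φ a) := fun a => by
  simpa [h.1 a] using dvd_aeval_sub_const hγ (φ a)

theorem aeval_aeval {S : Type} [CommRing S] [Algebra k S] (γ : τ → S) (H : MvPolynomial σ k) :
    aeval γ (aeval φ H) = aeval (fun a => aeval γ (φ a)) H :=
  algHom_aeval _ _ _ (fun _ => rfl) H

theorem Et.vol (h : Et φ) (H : MvPolynomial σ k) (m : ℕ) (d : k) :
    vol H m d = vol (aeval φ H) m d := by
  refine (hasVol_vol H m d).unique ?_
  obtain ⟨F, c, hd, hc, e⟩ := hasVol_vol (aeval φ H) m d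
  obtain ⟨M, hM, hF⟩ : ∃ M, m ≤ M ∧ F ⊆ Finset.univ ×ˢ Finset.range M :=
    ⟨m + F.sup (·.2) + 1, by omega, fun p hp => by
      have := Finset.le_sup (f := (·.2)) hp
      simp only [Finset.mem_product, Finset.mem_univ, Finset.mem_range, true_and] at this ⊢
      omega⟩
  obtain ⟨c', hc', e'⟩ := hasClass_cut_mono hd hc hF
  refine ⟨Finset.univ ×ˢ Finset.range M, c', fun K _ _ x y hxy hx => ?_,
    hc'.map (fun p => if p.2 < M then cf (φ p.1) (p.2 + 1) else 0) fun K _ _ => ?_, ?_⟩
  · refine (CP_congr hM fun j => (dvd_arc_sub (cen_arc x j)).2 fun l hl => ?_).1 hx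
    rw [coeff_arc, hxy _ (by simpa using hl)]
  · have key : ∀ (x : τ × ℕ → K) (a : σ), PowerSeries.X ^ (M + 1) ∣ arc (fun p : σ × ℕ =>
        aeval x (if p.2 < M then cf (φ p.1) (p.2 + 1) else 0)) a - aeval (arc x) (φ a) :=
      fun x a => (dvd_arc_sub (h.cen (cen_arc x) a)).2 fun l hl => by simp [hl, aeval_cf]
    refine ⟨fun x hx => ⟨(CP_congr hM (key x)).1 (by simpa only [CP, aeval_aeval] using hx.1),
      fun p hp => by simp [show ¬p.2 < M by simpa using hp]⟩, fun x hx x' hx' e => ?_,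
      fun y hy => ?_⟩
    · have h1 := jet_inj h.inj (cen_arc x) (cen_arc x') (M + 1) fun a => by
        have := dvd_sub (key x a) (key x' a)
        beta_reduce at e
        rwa [e, sub_sub_sub_cancel_left] at this
      funext p
      by_cases hp : p.2 < M
      · rw [(dvd_arc_sub (cen_arc x p.1)).1 (h1 p.1) p.2 hp, coeff_arc]
      · rw [hx.2 p (by simpa using hp), hx'.2 p (by simpa using hp)]
    · obtain ⟨γ, h1, h2⟩ := jet_surj h.1 h.surj (cen_arc y) M
      let x : τ × ℕ → K := fun p => if p.2 < M then PowerSeries.coeff (p.2 + 1) (γ p.1) else 0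
      have h3 : ∀ a, PowerSeries.X ^ (M + 1) ∣ aeval (arc x) (φ a) - arc y a := fun a => by
        simpa using dvd_add (aeval_congr_dvd (fun j => (dvd_arc_sub (x := x) (h1 j)).2
          fun l hl => if_pos hl) (φ a)) (h2 a)
      refine ⟨x, ⟨by simpa only [CP, aeval_aeval] using (CP_congr hM h3).1 hy.1,
        fun p hp => if_neg (by simpa using hp)⟩, funext fun p => ?_⟩
      by_cases hp : p.2 < M
      · have := dvd_add (key x p.1) (h3 p.1)
        rw [sub_add_sub_cancel] at this
        exact ((dvd_arc_sub (cen_arc y p.1)).1 this p.2 hp).trans (coeff_arc _ _ _)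
      · rw [hy.2 p (by simpa using hp)]
        simp [hp]
  · rw [e, e', Finset.card_product, Finset.card_product, Finset.card_univ, Finset.card_univ, h.card]

/-- `H` is equivalent to `G` up to a unit with constant term `c`, to every finite order. -/
def Eqv (H : MvPolynomial σ k) (G : MvPolynomial τ k) (c : k) : Prop :=
  ∀ M, ∃ (φ : σ → MvPolynomial τ k) (e : MvPolynomial τ k), Et φ ∧ constantCoeff e = c ∧
    aeval φ H - e * G ∈ idealOfVars τ k ^ M

theorem isUnit_aeval {K : Type} [Field K] [Algebra k K] {γ : τ → PowerSeries K} (hγ : Cen γ)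
    {e : MvPolynomial τ k} (he : constantCoeff e ≠ 0) : IsUnit (aeval γ e) := by
  have := PowerSeries.X_dvd_iff.1 (dvd_aeval_sub_const hγ e)
  rw [map_sub, alg_ps, PowerSeries.constantCoeff_C, sub_eq_zero] at this
  rw [PowerSeries.isUnit_iff_constantCoeff, this]
  exact IsUnit.mk0 _ ((map_ne_zero _).2 he)

theorem Eqv.vol {H : MvPolynomial σ k} {G : MvPolynomial τ k} {c : k} (h : Eqv H G c) (hc : c ≠ 0)
    (m : ℕ) (d : k) : vol H m d = vol G m (d / c) := by
  obtain ⟨φ, e, h1, rfl, h2⟩ := h (m + 1)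
  rw [h1.vol]
  refine ((hasVol_vol _ m d).congr fun K _ _ x => ?_).unique (hasVol_vol G m _)
  have h3 := dvd_aeval_of_mem (cen_arc x) h2
  have h4 := mul_dvd_mul (dvd_aeval_sub_const (cen_arc x) e) (Dvd.intro_left
    (PowerSeries.C (algebraMap k K (d / constantCoeff e))) (rfl : _ = _ * PowerSeries.X ^ m))
  rw [← pow_succ'] at h4
  refine Iff.trans ?_ ((dvd_add_right (dvd_add h3 h4)).trans
    (isUnit_aeval (cen_arc x) hc).dvd_mul_left)
  have h5 : algebraMap k (PowerSeries K) (constantCoeff e) *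
      PowerSeries.C (algebraMap k K (d / constantCoeff e)) = PowerSeries.C (algebraMap k K d) := by
    rw [alg_ps, ← map_mul, ← map_mul, mul_div_cancel₀ _ hc]
  rw [CP, map_sub, map_mul, ← h5]
  exact iff_of_eq (by congr 1; ring)

end

end Pool.Agent.P.MP_b91a16_ag.St
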